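import Mathlib

/-!
Definitions for the statement on inscribable polytopes with few facets.
-/

namespace H11Ins

/-- A `d`-polytope in `ℝ^d`: the convex hull of finitely many points, with nonempty interior
(that is, of dimension `d`). -/
def IsPolytope (d : ℕ) (P : Set (EuclideanSpace ℝ (Fin d))) : Prop :=
  (∃ S : Set (EuclideanSpace ℝ (Fin d)), S.Finite ∧ P = convexHull ℝ S) ∧ (interior P).Nonempty

/-- The faces of `P`: the empty face and the sets of maximizers over `P` of a linear functional
(`P` itself being the case of the zero functional), ordered by inclusion. -/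
abbrev Faces {d : ℕ} (P : Set (EuclideanSpace ℝ (Fin d))) : Type :=
  {F : Set (EuclideanSpace ℝ (Fin d)) // IsExposed ℝ P F}

/-- The facets of `P`: nonempty faces of dimension `d - 1`. -/
def facets {d : ℕ} (P : Set (EuclideanSpace ℝ (Fin d))) : Set (Set (EuclideanSpace ℝ (Fin d))) :=
  {F | IsExposed ℝ P F ∧ F.Nonempty ∧ Module.finrank ℝ (vectorSpan ℝ F) + 1 = d}

/-- Same combinatorial type: the face lattices are isomorphic as ordered sets. -/
def CombEquiv {d : ℕ} (P Q : Set (EuclideanSpace ℝ (Fin d))) : Prop :=
  Nonempty (Faces P ≃o Faces Q)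

/-- All vertices (extreme points) of `P` lie on a common sphere. -/
def Inscribed {d : ℕ} (P : Set (EuclideanSpace ℝ (Fin d))) : Prop :=
  ∃ (c : EuclideanSpace ℝ (Fin d)) (r : ℝ), 0 < r ∧ ∀ x ∈ P.extremePoints ℝ, dist x c = r

end H11Ins
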