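import Pool.Agent.H11Ins.Series
import Mathlib

/-!
The quadratic form on `{u | ∑ u i • z i = 0}` which vanishes on all minimal nonnegative vectors and
is positive definite on `∑ u i = 0`.
-/

open Finset Filter Topology
open scoped ComplexConjugate

namespace H11Ins

lemma exists_eps {X : Type*} [TopologicalSpace X] {U : Set X} (hU : IsCompact U) {a b : X → ℝ}
    (ha : Continuous a) (hb : Continuous b) (ha0 : ∀ u ∈ U, 0 ≤ a u)
    (hab : ∀ u ∈ U, a u = 0 → 0 < b u) : ∃ ε : ℝ, 0 < ε ∧ ∀ u ∈ U, 0 < a u + ε * b u := by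
  obtain ⟨C, hC⟩ : ∃ C : ℝ, ∀ u ∈ U, -C ≤ b u := by
    rcases U.eq_empty_or_nonempty with rfl | hne
    · exact ⟨0, by simp⟩
    · obtain ⟨x, hx, hmin⟩ := hU.exists_isMinOn hne hb.continuousOn
      exact ⟨-b x, fun u hu => by simpa using hmin hu⟩
  set D : ℝ := max C 0 with hD
  have hD0 : 0 ≤ D := le_max_right _ _
  have hCD : C ≤ D := le_max_left _ _
  set V : Set X := U ∩ {u | b u ≤ 0} with hV
  have hVc : IsCompact V := hU.inter_right (isClosed_le hb continuous_const)
  rcases V.eq_empty_or_nonempty with hVe | hne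
  · refine ⟨1, one_pos, fun u hu => ?_⟩
    have : 0 < b u := by
      by_contra hneg
      push Not at hneg
      have : u ∈ V := ⟨hu, hneg⟩
      rw [hVe] at this
      exact this
    have := ha0 u hu
    linarith
  · obtain ⟨x, hx, hmin⟩ := hVc.exists_isMinOn hne ha.continuousOn
    have hδ : 0 < a x := by
      rcases (ha0 x hx.1).lt_or_eq with h | h
      · exact h
      · have := hab x hx.1 h.symm
        have h2 : b x ≤ 0 := hx.2
        linarith
    refine ⟨a x / (2 * (D + 1)), by positivity, fun u hu => ?_⟩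
    by_cases hbu : b u ≤ 0
    · have h1 : a x ≤ a u := hmin ⟨hu, hbu⟩
      have h2 : -D ≤ b u := by linarith [hC u hu]
      have h3 : a x / (2 * (D + 1)) * (-D) ≤ a x / (2 * (D + 1)) * b u :=
        mul_le_mul_of_nonneg_left h2 (by positivity)
      have h4 : a x / (2 * (D + 1)) * D ≤ a x / 2 := by
        rw [div_mul_eq_mul_div, div_le_div_iff₀ (by positivity) (by norm_num)]
        nlinarith
      nlinarith
    · push Not at hbu
      have := ha0 u hu
      have : 0 < a x / (2 * (D + 1)) * b u := by positivity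
      linarith

variable {ι : Type*} [Fintype ι] [DecidableEq ι]

/-- kernel matrix -/
noncomputable def Kc (z : ι → ℂ) (i j : ι) : ℝ :=
  if z i = 0 ∨ z j = 0 then 0 else kap |(z i * conj (z j)).arg|

omit [Fintype ι] [DecidableEq ι] in
lemma Kc_hasSum {z : ι → ℂ} (hz : ∀ i, z i = 0 ∨ ‖z i‖ = 1) (i j : ι) :
    HasSum (fun k : ℕ => cf k * ((z i * conj (z j)) ^ (k + 2)).re) (Kc z i j) := by
  unfold Kc
  split_ifs with h
  · have : ∀ k : ℕ, cf k * ((z i * conj (z j)) ^ (k + 2)).re = 0 := by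
      intro k
      have h0 : z i * conj (z j) = 0 := by
        rcases h with h | h <;> simp [h]
      rw [h0, zero_pow (by omega)]
      simp
    simp_rw [this]
    exact hasSum_zero
  · push Not at h
    have h1 : ‖z i * conj (z j)‖ = 1 := by
      rw [norm_mul, RCLike.norm_conj]
      rw [(hz i).resolve_left h.1, (hz j).resolve_left h.2, mul_one]
    set w := z i * conj (z j) with hw
    have h2 := kap_hasSum (abs_nonneg w.arg) (Complex.abs_arg_le_pi w)
    have h3 : ∀ k : ℕ, (w ^ (k + 2)).re = Real.cos (((k : ℝ) + 2) * |w.arg|) := by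
      intro k
      have h4 : w = Complex.exp (w.arg * Complex.I) := by
        have := Complex.norm_mul_exp_arg_mul_I w
        rw [h1] at this
        simpa using this.symm
      have h5 : w ^ (k + 2) = Complex.exp (((((k : ℝ) + 2) * w.arg : ℝ) : ℂ) * Complex.I) := by
        conv_lhs => rw [h4]
        rw [← Complex.exp_nat_mul]
        congr 1
        push_cast
        ring
      rw [h5, Complex.exp_ofReal_mul_I_re]
      rcases abs_choice w.arg with h6 | h6
      · rw [h6]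
      · rw [h6, mul_neg, Real.cos_neg]
    simp_rw [h3]
    exact h2

omit [Fintype ι] [DecidableEq ι] in
lemma Kc_symm {z : ι → ℂ} (hz : ∀ i, z i = 0 ∨ ‖z i‖ = 1) (i j : ι) : Kc z i j = Kc z j i := by
  have h1 := Kc_hasSum hz i j
  have h2 := Kc_hasSum hz j i
  have h3 : (fun k : ℕ => cf k * ((z i * conj (z j)) ^ (k + 2)).re) =
      fun k : ℕ => cf k * ((z j * conj (z i)) ^ (k + 2)).re := by
    funext k
    have : (z j * conj (z i)) ^ (k + 2) = conj ((z i * conj (z j)) ^ (k + 2)) := by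
      rw [map_pow, map_mul, Complex.conj_conj, mul_comm]
    rw [this, Complex.conj_re]
  rw [h3] at h1
  exact h1.unique h2

lemma A_hasSum {z : ι → ℂ} (hz : ∀ i, z i = 0 ∨ ‖z i‖ = 1) (u : ι → ℝ) :
    HasSum (fun k : ℕ => cf k * ‖∑ i, (u i : ℂ) * z i ^ (k + 2)‖ ^ 2)
      (∑ i, ∑ j, Kc z i j * u i * u j) := by
  have h1 : HasSum (fun k : ℕ => ∑ i, ∑ j,
      (cf k * ((z i * conj (z j)) ^ (k + 2)).re) * u i * u j)
      (∑ i, ∑ j, Kc z i j * u i * u j) :=
    hasSum_sum fun i _ => hasSum_sum fun j _ => ((Kc_hasSum hz i j).mul_right _).mul_right _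
  have h2 : (fun k : ℕ => cf k * ‖∑ i, (u i : ℂ) * z i ^ (k + 2)‖ ^ 2) =
      fun k : ℕ => ∑ i, ∑ j, (cf k * ((z i * conj (z j)) ^ (k + 2)).re) * u i * u j := by
    funext k
    have h3 : ((‖∑ i, (u i : ℂ) * z i ^ (k + 2)‖ ^ 2 : ℝ) : ℂ) =
        ∑ i, ∑ j, ((z i * conj (z j)) ^ (k + 2)) * u i * u j := by
      push_cast
      rw [← Complex.mul_conj', map_sum, sum_mul_sum]
      refine sum_congr rfl fun i _ => sum_congr rfl fun j _ => ?_
      rw [map_mul, Complex.conj_ofReal, map_pow]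
      ring
    have h4 := congrArg Complex.re h3
    rw [Complex.ofReal_re, Complex.re_sum] at h4
    rw [h4, mul_sum]
    refine sum_congr rfl fun i _ => ?_
    rw [Complex.re_sum, mul_sum]
    refine sum_congr rfl fun j _ => ?_
    rw [mul_assoc ((z i * conj (z j)) ^ (k + 2)), ← Complex.ofReal_mul, Complex.re_mul_ofReal]
    ring
  rw [h2]
  exact h1

/-- sums over classes vanish if all power sums vanish -/
lemma class_sums {z : ι → ℂ} {u : ι → ℝ} (h : ∀ k : ℕ, ∑ i, (u i : ℂ) * z i ^ k = 0) (c : ℂ) :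
    ∑ i with z i = c, u i = 0 := by
  classical
  have hp : ∀ p : Polynomial ℂ, ∑ i, (u i : ℂ) * p.eval (z i) = 0 := by
    intro p
    have : ∀ i, (u i : ℂ) * p.eval (z i) =
        ∑ k ∈ p.support, p.coeff k * ((u i : ℂ) * z i ^ k) := by
      intro i
      rw [Polynomial.eval_eq_sum, Polynomial.sum, mul_sum]
      refine sum_congr rfl fun k _ => by ring
    simp_rw [this]
    rw [sum_comm]
    apply sum_eq_zero
    intro k _
    rw [← mul_sum, h k, mul_zero]
  set s : Finset ℂ := (univ.image z).erase c with hs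
  have h1 := hp (∏ a ∈ s, (Polynomial.X - Polynomial.C a))
  have h2 : ∀ i, (u i : ℂ) * (∏ a ∈ s, (Polynomial.X - Polynomial.C a)).eval (z i) =
      if z i = c then (u i : ℂ) * ∏ a ∈ s, (c - a) else 0 := by
    intro i
    rw [Polynomial.eval_prod]
    simp only [Polynomial.eval_sub, Polynomial.eval_X, Polynomial.eval_C]
    split_ifs with hc
    · rw [hc]
    · rw [prod_eq_zero (i := z i), mul_zero]
      · rw [hs, mem_erase]
        exact ⟨hc, mem_image_of_mem _ (mem_univ _)⟩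
      · simp
  simp_rw [h2] at h1
  rw [← sum_filter, ← sum_mul] at h1
  have h3 : ∏ a ∈ s, (c - a) ≠ 0 := by
    rw [prod_ne_zero_iff]
    intro a ha
    rw [hs, mem_erase] at ha
    exact sub_ne_zero.2 ha.1.symm
  have h4 := (mul_eq_zero.1 h1).resolve_right h3
  exact_mod_cast h4

/-- the additional class term -/
noncomputable def Bm (z : ι → ℂ) (i j : ι) : ℝ := if i ≠ j ∧ z i = z j ∧ z i ≠ 0 then -1 else 0

/-- the additional term for the pyramid coordinates -/
noncomputable def Zm (z : ι → ℂ) (i j : ι) : ℝ := if i = j ∧ z i = 0 then 1 / 2 else 0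

lemma Zm_sum (z : ι → ℂ) (u : ι → ℝ) :
    ∑ i, ∑ j, Zm z i j * u i * u j = ∑ i with z i = 0, 1 / 2 * u i ^ 2 := by
  rw [sum_filter]
  refine sum_congr rfl fun i _ => ?_
  unfold Zm
  split_ifs with h
  · rw [sum_eq_single i]
    · simp [h]; ring
    · intro j _ hj
      rw [if_neg (by rintro ⟨rfl, _⟩; exact hj rfl)]
      ring
    · simp
  · apply sum_eq_zero
    intro j _
    rw [if_neg (by rintro ⟨_, h2⟩; exact h h2)]
    ring

lemma Bm_pos {z : ι → ℂ} {u : ι → ℝ} (hu : u ≠ 0) (h0 : ∀ i, z i = 0 → u i = 0)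
    (h : ∀ c, ∑ i with z i = c, u i = 0) : 0 < ∑ i, ∑ j, Bm z i j * u i * u j := by
  have h1 : ∀ i, ∑ j, Bm z i j * u i * u j = u i ^ 2 := by
    intro i
    by_cases hi : z i = 0
    · rw [h0 i hi]; simp
    · have h2 : ∀ j, Bm z i j * u i * u j =
          (if j = i then u i ^ 2 else 0) - u i * (if z j = z i then u j else 0) := by
        intro j
        unfold Bm
        by_cases hji : j = i
        · subst hji; simp; ring
        · by_cases hzz : z i = z j
          · rw [if_pos ⟨Ne.symm hji, hzz, hi⟩, if_neg hji, if_pos hzz.symm]; ring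
          · rw [if_neg (by tauto), if_neg hji, if_neg (Ne.symm hzz)]; ring
      simp_rw [h2]
      rw [sum_sub_distrib, sum_ite_eq' univ i, if_pos (mem_univ _), ← mul_sum, ← sum_filter,
        h (z i), mul_zero, sub_zero]
  simp_rw [h1]
  obtain ⟨i, hi⟩ : ∃ i, u i ≠ 0 := by
    by_contra hcon
    push Not at hcon
    exact hu (funext hcon)
  exact sum_pos' (fun _ _ => sq_nonneg _) ⟨i, mem_univ _, by positivity⟩

lemma Zm_sum_nonneg (z : ι → ℂ) (u : ι → ℝ) : 0 ≤ ∑ i, ∑ j, Zm z i j * u i * u j := by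
  rw [Zm_sum]
  exact sum_nonneg fun i _ => by positivity

lemma Kc_sum_nonneg {z : ι → ℂ} (hz : ∀ i, z i = 0 ∨ ‖z i‖ = 1) (u : ι → ℝ) :
    0 ≤ ∑ i, ∑ j, Kc z i j * u i * u j :=
  (A_hasSum hz u).nonneg fun k => mul_nonneg (cf_pos k).le (sq_nonneg _)

/-- the full matrix -/
noncomputable def Qm (z : ι → ℂ) (ε : ℝ) (i j : ι) : ℝ :=
  Kc z i j - 1 / 2 + Zm z i j + ε * Bm z i j

lemma Qm_sum (z : ι → ℂ) (ε : ℝ) (u : ι → ℝ) : ∑ i, ∑ j, Qm z ε i j * u i * u j =
    ∑ i, ∑ j, Kc z i j * u i * u j - 1 / 2 * (∑ i, u i) ^ 2 + ∑ i, ∑ j, Zm z i j * u i * u j +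
      ε * ∑ i, ∑ j, Bm z i j * u i * u j := by
  rw [sq, sum_mul_sum, mul_sum, mul_sum, ← sum_sub_distrib, ← sum_add_distrib, ← sum_add_distrib]
  refine sum_congr rfl fun i _ => ?_
  rw [mul_sum, mul_sum, ← sum_sub_distrib, ← sum_add_distrib, ← sum_add_distrib]
  refine sum_congr rfl fun j _ => ?_
  unfold Qm
  ring

lemma zero_of_A {z : ι → ℂ} (hz : ∀ i, z i = 0 ∨ ‖z i‖ = 1) {u : ι → ℝ}
    (h1 : ∑ i, (u i : ℂ) * z i = 0) (h0 : ∑ i, u i = 0)
    (hA : ∑ i, ∑ j, Kc z i j * u i * u j = 0) (c : ℂ) : ∑ i with z i = c, u i = 0 := by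
  apply class_sums
  intro k
  match k with
  | 0 => simpa using congrArg (fun x : ℝ => (x : ℂ)) h0
  | 1 => simpa using h1
  | k + 2 =>
    have h2 := A_hasSum hz u
    rw [hA] at h2
    have h3 := (hasSum_zero_iff_of_nonneg (fun k =>
      mul_nonneg (cf_pos k).le (sq_nonneg _))).1 h2
    have h4 := congrFun h3 k
    simp only [Pi.zero_apply, mul_eq_zero, (cf_pos k).ne', false_or] at h4
    exact norm_eq_zero.1 (pow_eq_zero_iff (two_ne_zero) |>.1 h4)

lemma exists_Qm_pos {z : ι → ℂ} (hz : ∀ i, z i = 0 ∨ ‖z i‖ = 1) :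
    ∃ ε : ℝ, ∀ u : ι → ℝ, ∑ i, (u i : ℂ) * z i = 0 → ∑ i, u i = 0 → u ≠ 0 →
      0 < ∑ i, ∑ j, Qm z ε i j * u i * u j := by
  set U : Set (ι → ℝ) := Metric.sphere 0 1 ∩
    ({u | ∑ i, (u i : ℂ) * z i = 0} ∩ {u | ∑ i, u i = 0}) with hU
  have hUc : IsCompact U := by
    apply (isCompact_sphere _ _).inter_right
    apply IsClosed.inter
    · exact isClosed_eq (by fun_prop) continuous_const
    · exact isClosed_eq (by fun_prop) continuous_const
  obtain ⟨ε, hε, h⟩ := exists_eps hUc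
    (a := fun u => ∑ i, ∑ j, Kc z i j * u i * u j + ∑ i, ∑ j, Zm z i j * u i * u j)
    (b := fun u => ∑ i, ∑ j, Bm z i j * u i * u j) (by fun_prop) (by fun_prop)
    (fun u _ => add_nonneg (Kc_sum_nonneg hz u) (Zm_sum_nonneg z u))
    (by
      intro u hu ha
      have hA := Kc_sum_nonneg hz u
      have hZ := Zm_sum_nonneg z u
      have hA0 : ∑ i, ∑ j, Kc z i j * u i * u j = 0 := by linarith
      have hZ0 : ∑ i, ∑ j, Zm z i j * u i * u j = 0 := by linarith
      apply Bm_pos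
      · rintro rfl
        have := hu.1
        simp at this
      · intro i hi
        rw [Zm_sum] at hZ0
        have h5 := (sum_eq_zero_iff_of_nonneg (fun i _ => by positivity)).1 hZ0 i
          (mem_filter.2 ⟨mem_univ _, hi⟩)
        have h6 : u i ^ 2 = 0 := by linarith
        exact pow_eq_zero_iff two_ne_zero |>.1 h6
      · exact zero_of_A hz hu.2.1 hu.2.2 hA0)
  refine ⟨ε, fun u h1 h0 hu => ?_⟩
  have hn : 0 < ‖u‖ := norm_pos_iff.2 hu
  have hmem : ‖u‖⁻¹ • u ∈ U := by
    refine ⟨?_, ?_, ?_⟩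
    · rw [mem_sphere_zero_iff_norm, norm_smul, norm_inv, norm_norm, inv_mul_cancel₀ hn.ne']
    · simp only [Set.mem_ofPred_eq, Pi.smul_apply, smul_eq_mul, Complex.ofReal_mul]
      simp_rw [mul_assoc]
      rw [← mul_sum, h1, mul_zero]
    · simp only [Set.mem_ofPred_eq, Pi.smul_apply, smul_eq_mul]
      rw [← mul_sum, h0, mul_zero]
  have h2 := h _ hmem
  have hsc : ∀ (f : ι → ι → ℝ), ∑ i, ∑ j, f i j * (‖u‖⁻¹ • u) i * (‖u‖⁻¹ • u) j =
      ‖u‖⁻¹ ^ 2 * ∑ i, ∑ j, f i j * u i * u j := by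
    intro f
    rw [mul_sum]
    refine sum_congr rfl fun i _ => ?_
    rw [mul_sum]
    refine sum_congr rfl fun j _ => ?_
    simp only [Pi.smul_apply, smul_eq_mul]
    ring
  simp only [hsc] at h2
  rw [Qm_sum, h0]
  have h3 : 0 < ‖u‖⁻¹ ^ 2 * (∑ i, ∑ j, Kc z i j * u i * u j +
      ∑ i, ∑ j, Zm z i j * u i * u j + ε * ∑ i, ∑ j, Bm z i j * u i * u j) := by
    linarith
  have h4 := (mul_pos_iff_of_pos_left (by positivity)).1 h3
  linarith

/-- cross product -/
def cr (a b : ℂ) : ℝ := a.re * b.im - a.im * b.re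

lemma cr_rel (a b c : ℂ) : (cr b c : ℂ) * a + (cr c a : ℂ) * b + (cr a b : ℂ) * c = 0 := by
  apply Complex.ext
  · simp only [cr, Complex.add_re, Complex.re_ofReal_mul, Complex.zero_re]
    ring
  · simp only [cr, Complex.add_im, Complex.im_ofReal_mul, Complex.zero_im]
    ring

lemma im_mul_conj (a b : ℂ) : (a * conj b).im = -cr a b := by
  simp [cr]
  ring

lemma re_mul_conj (a b : ℂ) : (a * conj b).re = a.re * b.re + a.im * b.im := by
  simp

lemma kap_arg {w : ℂ} (hw : ‖w‖ = 1) :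
    kap |w.arg| = 1 / 2 + 3 / 4 * w.re + |w.im| * (3 / 2 * |w.arg| - Real.pi) := by
  have h0 : w ≠ 0 := by
    intro h; rw [h] at hw; simp at hw
  have h1 : Real.cos |w.arg| = w.re := by
    rw [Real.cos_abs, Complex.cos_arg h0, hw, div_one]
  have h2 : Real.sin |w.arg| = |w.im| := by
    have h3 : Real.sin w.arg = w.im := by rw [Complex.sin_arg, hw, div_one]
    rw [← h3]
    rcases abs_choice w.arg with h4 | h4
    · rw [h4, abs_of_nonneg]
      apply Real.sin_nonneg_of_nonneg_of_le_pi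
      · rw [← h4]; exact abs_nonneg _
      · exact Complex.arg_le_pi w
    · rw [h4, Real.sin_neg, abs_of_nonpos]
      apply Real.sin_nonpos_of_nonpos_of_neg_pi_le
      · have := abs_nonneg w.arg; linarith
      · exact (Complex.neg_pi_lt_arg w).le
  unfold kap
  rw [h1, h2]

lemma exp_arg {w : ℂ} (hw : ‖w‖ = 1) : Complex.exp (w.arg * Complex.I) = w := by
  have := Complex.norm_mul_exp_arg_mul_I w
  rw [hw] at this
  simpa using this

lemma angle_sum_pos {a b c : ℂ} (ha : ‖a‖ = 1) (hb : ‖b‖ = 1) (hc : ‖c‖ = 1)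
    (hprod : a * b * c = 1) (h1 : 0 < a.im) (h2 : 0 < b.im) (h3 : 0 < c.im) :
    a.arg + b.arg + c.arg = 2 * Real.pi := by
  have key : ∀ w : ℂ, 0 < w.im → 0 < w.arg ∧ w.arg < Real.pi := by
    intro w hw
    have h4 := Complex.sin_arg w
    have h5 : 0 < Real.sin w.arg := by
      rw [h4]
      apply div_pos hw
      apply norm_pos_iff.2
      rintro rfl
      simp at hw
    have h6 : 0 ≤ w.arg := Complex.arg_nonneg_iff.2 hw.le
    constructor
    · rcases h6.lt_or_eq with h | h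
      · exact h
      · rw [← h] at h5; simp at h5
    · rcases (Complex.arg_le_pi w).lt_or_eq with h | h
      · exact h
      · rw [h] at h5; simp at h5
  obtain ⟨a1, a2⟩ := key a h1
  obtain ⟨b1, b2⟩ := key b h2
  obtain ⟨c1, c2⟩ := key c h3
  have h7 : Complex.exp (((a.arg + b.arg + c.arg : ℝ) : ℂ) * Complex.I) = 1 := by
    push_cast
    rw [add_mul, add_mul, Complex.exp_add, Complex.exp_add, exp_arg ha, exp_arg hb, exp_arg hc,
      hprod]
  rw [Complex.exp_eq_one_iff] at h7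
  obtain ⟨n, hn⟩ := h7
  have h8 : a.arg + b.arg + c.arg = n * (2 * Real.pi) := by
    have h9 := congrArg Complex.im hn
    have e1 : (n : ℂ) * (2 * (Real.pi : ℂ) * Complex.I) =
        ((n * (2 * Real.pi) : ℝ) : ℂ) * Complex.I := by push_cast; ring
    rw [e1] at h9
    simpa using h9
  have hpi := Real.pi_pos
  have h10 : (0 : ℝ) < n := by
    by_contra hneg
    push Not at hneg
    have : (n : ℝ) * (2 * Real.pi) ≤ 0 := mul_nonpos_of_nonpos_of_nonneg hneg (by positivity)
    linarith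
  have h11 : (n : ℝ) < 2 := by
    by_contra hneg
    push Not at hneg
    have : 2 * (2 * Real.pi) ≤ (n : ℝ) * (2 * Real.pi) := by gcongr
    linarith
  have h12 : n = 1 := by
    have h13 : (0 : ℤ) < n := by exact_mod_cast h10
    have h14 : n < (2 : ℤ) := by exact_mod_cast h11
    omega
  rw [h8, h12]
  norm_num

lemma angle_sum_abs {a b c : ℂ} (ha : ‖a‖ = 1) (hb : ‖b‖ = 1) (hc : ‖c‖ = 1)
    (hprod : a * b * c = 1)
    (h : (0 < a.im ∧ 0 < b.im ∧ 0 < c.im) ∨ (a.im < 0 ∧ b.im < 0 ∧ c.im < 0)) :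
    |a.arg| + |b.arg| + |c.arg| = 2 * Real.pi := by
  rcases h with ⟨h1, h2, h3⟩ | ⟨h1, h2, h3⟩
  · rw [abs_of_nonneg (Complex.arg_nonneg_iff.2 h1.le),
      abs_of_nonneg (Complex.arg_nonneg_iff.2 h2.le),
      abs_of_nonneg (Complex.arg_nonneg_iff.2 h3.le)]
    exact angle_sum_pos ha hb hc hprod h1 h2 h3
  · have e : ∀ w : ℂ, w.im < 0 → |w.arg| = (conj w).arg := by
      intro w hw
      have h4 : w.arg < 0 := Complex.arg_neg_iff.2 hw
      rw [abs_of_neg h4, Complex.arg_conj, if_neg]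
      intro h5
      have := Real.pi_pos
      linarith
    rw [e a h1, e b h2, e c h3]
    apply angle_sum_pos
    · rw [RCLike.norm_conj, ha]
    · rw [RCLike.norm_conj, hb]
    · rw [RCLike.norm_conj, hc]
    · rw [← map_mul, ← map_mul, hprod, map_one]
    · simpa using h1
    · simpa using h2
    · simpa using h3

end H11Ins
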