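import Pool.Agent.H11Ins.Form
import Mathlib

/-!
The form vanishes on support-minimal nonnegative vectors.
-/

open Finset Filter Topology
open scoped ComplexConjugate

namespace H11Ins

variable {ι : Type*} [Fintype ι] [DecidableEq ι]

omit [DecidableEq ι] in
lemma sum_supp3 {M : Type*} [AddCommMonoid M] (g : ι → M) {i j k : ι} (hij : i ≠ j) (hik : i ≠ k)
    (hjk : j ≠ k) (h : ∀ a, a ≠ i → a ≠ j → a ≠ k → g a = 0) : ∑ a, g a = g i + g j + g k := by
  classical
  have h1 : ∑ a, g a = ∑ a ∈ ({i, j, k} : Finset ι), g a := by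
    symm
    apply sum_subset (subset_univ _)
    intro a _ ha
    simp only [mem_insert, mem_singleton, not_or] at ha
    exact h a ha.1 ha.2.1 ha.2.2
  rw [h1, sum_insert (by simp [hij, hik]), sum_insert (by simp [hjk]), sum_singleton, add_assoc]

omit [DecidableEq ι] in
lemma sum_supp2 {M : Type*} [AddCommMonoid M] (g : ι → M) {i j : ι} (hij : i ≠ j)
    (h : ∀ a, a ≠ i → a ≠ j → g a = 0) : ∑ a, g a = g i + g j := by
  classical
  have h1 : ∑ a, g a = ∑ a ∈ ({i, j} : Finset ι), g a := by
    symm
    apply sum_subset (subset_univ _)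
    intro a _ ha
    simp only [mem_insert, mem_singleton, not_or] at ha
    exact h a ha.1 ha.2
  rw [h1, sum_insert (by simp [hij]), sum_singleton]

lemma Kc_diag {z : ι → ℂ} {i : ι} (hi : ‖z i‖ = 1) : Kc z i i = 5 / 4 := by
  have h0 : z i ≠ 0 := by
    intro h; rw [h] at hi; simp at hi
  unfold Kc
  rw [if_neg (by tauto)]
  have h1 : z i * conj (z i) = 1 := by
    rw [Complex.mul_conj', hi]
    norm_num
  rw [h1, Complex.arg_one, abs_zero]
  unfold kap
  norm_num

lemma Qm_diag {z : ι → ℂ} {ε : ℝ} {i : ι} (hi : ‖z i‖ = 1) : Qm z ε i i = 3 / 4 := by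
  have h0 : z i ≠ 0 := by
    intro h; rw [h] at hi; simp at hi
  unfold Qm
  rw [Kc_diag hi, Zm, Bm, if_neg (by tauto), if_neg (by tauto)]
  norm_num

lemma Qm_off {z : ι → ℂ} {ε : ℝ} {i j : ι} (hi : ‖z i‖ = 1) (hj : ‖z j‖ = 1) (hij : i ≠ j)
    (hz : z i ≠ z j) : Qm z ε i j = 3 / 4 * ((z i).re * (z j).re + (z i).im * (z j).im) +
      |cr (z i) (z j)| * (3 / 2 * |(z i * conj (z j)).arg| - Real.pi) := by
  have h0 : z i ≠ 0 := by
    intro h; rw [h] at hi; simp at hi
  have h0' : z j ≠ 0 := by
    intro h; rw [h] at hj; simp at hj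
  have hn : ‖z i * conj (z j)‖ = 1 := by
    rw [norm_mul, RCLike.norm_conj, hi, hj, mul_one]
  unfold Qm
  rw [Kc, if_neg (by tauto), Zm, Bm, if_neg (by tauto), if_neg (by tauto), kap_arg hn,
    re_mul_conj, im_mul_conj, abs_neg]
  ring

lemma arg_abs_symm (a b : ℂ) : |(b * conj a).arg| = |(a * conj b).arg| := by
  have : b * conj a = conj (a * conj b) := by
    rw [map_mul, Complex.conj_conj, mul_comm]
  rw [this, Complex.arg_conj]
  split_ifs with h
  · rw [h]
  · rw [abs_neg]

lemma norm_sq_one {a : ℂ} (ha : ‖a‖ = 1) : a.re ^ 2 + a.im ^ 2 = 1 := by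
  have := Complex.sq_norm a
  rw [ha, Complex.normSq_apply] at this
  nlinarith

lemma cr_swap (a b : ℂ) : cr b a = -cr a b := by
  unfold cr; ring

/-- main identity for three vectors -/
lemma three_vanish {z : ι → ℂ} {ε : ℝ} {i j k : ι} (hi : ‖z i‖ = 1) (hj : ‖z j‖ = 1)
    (hk : ‖z k‖ = 1) (hij : i ≠ j) (hik : i ≠ k) (hjk : j ≠ k)
    (hs : (0 < cr (z j) (z k) ∧ 0 < cr (z k) (z i) ∧ 0 < cr (z i) (z j)) ∨
      (cr (z j) (z k) < 0 ∧ cr (z k) (z i) < 0 ∧ cr (z i) (z j) < 0)) {v : ι → ℝ}
    (hvi : v i = cr (z j) (z k)) (hvj : v j = cr (z k) (z i)) (hvk : v k = cr (z i) (z j))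
    (hv : ∀ a, a ≠ i → a ≠ j → a ≠ k → v a = 0) :
    ∑ a, ∑ b, Qm z ε a b * v a * v b = 0 := by
  have hne : ∀ a b : ℂ, cr a b ≠ 0 → a ≠ b := by
    rintro a b h rfl
    apply h
    unfold cr; ring
  have n1 : cr (z j) (z k) ≠ 0 := by rcases hs with h | h <;> [exact h.1.ne'; exact h.1.ne]
  have n2 : cr (z k) (z i) ≠ 0 := by rcases hs with h | h <;> [exact h.2.1.ne'; exact h.2.1.ne]
  have n3 : cr (z i) (z j) ≠ 0 := by rcases hs with h | h <;> [exact h.2.2.ne'; exact h.2.2.ne]
  rw [sum_supp3 _ hij hik hjk (by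
    intro a h1 h2 h3
    apply sum_eq_zero
    intro b _
    rw [hv a h1 h2 h3]; ring)]
  rw [sum_supp3 (fun b => Qm z ε i b * v i * v b) hij hik hjk (by
      intro a h1 h2 h3; rw [hv a h1 h2 h3]; ring),
    sum_supp3 (fun b => Qm z ε j b * v j * v b) hij hik hjk (by
      intro a h1 h2 h3; rw [hv a h1 h2 h3]; ring),
    sum_supp3 (fun b => Qm z ε k b * v k * v b) hij hik hjk (by
      intro a h1 h2 h3; rw [hv a h1 h2 h3]; ring)]
  rw [Qm_diag hi, Qm_diag hj, Qm_diag hk, Qm_off hi hj hij (hne _ _ n3),
    Qm_off hj hi (Ne.symm hij) (hne _ _ n3).symm, Qm_off hj hk hjk (hne _ _ n1),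
    Qm_off hk hj (Ne.symm hjk) (hne _ _ n1).symm, Qm_off hk hi (Ne.symm hik) (hne _ _ n2),
    Qm_off hi hk hik (hne _ _ n2).symm, arg_abs_symm (z i) (z j), arg_abs_symm (z j) (z k),
    arg_abs_symm (z k) (z i), cr_swap (z i) (z j), cr_swap (z j) (z k), cr_swap (z k) (z i),
    abs_neg, abs_neg, abs_neg]
  have hang : |(z i * conj (z j)).arg| + |(z j * conj (z k)).arg| + |(z k * conj (z i)).arg| =
      2 * Real.pi := by
    apply angle_sum_abs
    · rw [norm_mul, RCLike.norm_conj, hi, hj, mul_one]
    · rw [norm_mul, RCLike.norm_conj, hj, hk, mul_one]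
    · rw [norm_mul, RCLike.norm_conj, hk, hi, mul_one]
    · have e1 : z i * conj (z i) = 1 := by rw [Complex.mul_conj', hi]; norm_num
      have e2 : z j * conj (z j) = 1 := by rw [Complex.mul_conj', hj]; norm_num
      have e3 : z k * conj (z k) = 1 := by rw [Complex.mul_conj', hk]; norm_num
      calc z i * conj (z j) * (z j * conj (z k)) * (z k * conj (z i))
          = (z i * conj (z i)) * (z j * conj (z j)) * (z k * conj (z k)) := by ring
        _ = 1 := by rw [e1, e2, e3]; norm_num
    · rw [im_mul_conj, im_mul_conj, im_mul_conj]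
      rcases hs with ⟨h1, h2, h3⟩ | ⟨h1, h2, h3⟩
      · right; exact ⟨by linarith, by linarith, by linarith⟩
      · left; exact ⟨by linarith, by linarith, by linarith⟩
  set α := |(z i * conj (z j)).arg|
  set β := |(z j * conj (z k)).arg|
  set γ := |(z k * conj (z i)).arg|
  have hγ : γ = 2 * Real.pi - α - β := by linarith
  rw [hγ, hvi, hvj, hvk]
  have q1 := norm_sq_one hi
  have q2 := norm_sq_one hj
  have q3 := norm_sq_one hk
  have hrel := cr_rel (z i) (z j) (z k)
  have hre := congrArg Complex.re hrel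
  have him := congrArg Complex.im hrel
  simp only [Complex.add_re, Complex.add_im, Complex.re_ofReal_mul, Complex.im_ofReal_mul,
    Complex.zero_re, Complex.zero_im] at hre him
  set c1 := cr (z j) (z k)
  set c2 := cr (z k) (z i)
  set c3 := cr (z i) (z j)
  have habs : ∃ σ : ℝ, |c1| = σ * c1 ∧ |c2| = σ * c2 ∧ |c3| = σ * c3 := by
    rcases hs with ⟨h1, h2, h3⟩ | ⟨h1, h2, h3⟩
    · exact ⟨1, by rw [abs_of_pos h1, one_mul], by rw [abs_of_pos h2, one_mul],
        by rw [abs_of_pos h3, one_mul]⟩
    · exact ⟨-1, by rw [abs_of_neg h1]; ring, by rw [abs_of_neg h2]; ring,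
        by rw [abs_of_neg h3]; ring⟩
  obtain ⟨σ, s1, s2, s3⟩ := habs
  rw [s1, s2, s3]
  linear_combination (3 / 4) * (c1 * (z i).re + c2 * (z j).re + c3 * (z k).re) * hre +
    (3 / 4) * (c1 * (z i).im + c2 * (z j).im + c3 * (z k).im) * him -
    (3 / 4) * c1 ^ 2 * q1 - (3 / 4) * c2 ^ 2 * q2 - (3 / 4) * c3 ^ 2 * q3

/-- `Qm` vanishes on support-minimal vectors -/
lemma Qm_vanish {z : ι → ℂ} (hz : ∀ i, z i = 0 ∨ ‖z i‖ = 1) {ε : ℝ} {u : ι → ℝ}
    (hu0 : ∀ i, 0 ≤ u i) (hu : u ≠ 0) (hrel : ∑ i, (u i : ℂ) * z i = 0)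
    (hmin : ∀ v : ι → ℝ, ∑ i, (v i : ℂ) * z i = 0 → (∀ i, u i = 0 → v i = 0) →
      ∃ c : ℝ, v = c • u) : ∑ a, ∑ b, Qm z ε a b * u a * u b = 0 := by
  obtain ⟨i, hi⟩ : ∃ i, u i ≠ 0 := by
    by_contra hcon
    push Not at hcon
    exact hu (funext hcon)
  -- scaling lemma
  have hscale : ∀ (c : ℝ) (v : ι → ℝ), v = c • u → v ≠ 0 →
      ∑ a, ∑ b, Qm z ε a b * v a * v b = 0 → ∑ a, ∑ b, Qm z ε a b * u a * u b = 0 := by
    intro c v hv hv0 hq
    have hc : c ≠ 0 := by
      rintro rfl
      rw [zero_smul] at hv
      exact hv0 hv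
    have h1 : ∑ a, ∑ b, Qm z ε a b * v a * v b =
        c ^ 2 * ∑ a, ∑ b, Qm z ε a b * u a * u b := by
      rw [mul_sum]
      refine sum_congr rfl fun a _ => ?_
      rw [mul_sum]
      refine sum_congr rfl fun b _ => ?_
      rw [hv]
      simp only [Pi.smul_apply, smul_eq_mul]
      ring
    rw [h1] at hq
    exact (mul_eq_zero.1 hq).resolve_left (pow_ne_zero _ hc)
  by_cases hall : ∃ i, u i ≠ 0 ∧ z i = 0
  · obtain ⟨i, hi, hzi⟩ := hall
    obtain ⟨c, hc⟩ := hmin (Pi.single i 1) (by
        rw [sum_eq_single i]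
        · simp [hzi]
        · intro j _ hj
          simp [hj]
        · simp) (by
        intro j hj
        have : j ≠ i := by rintro rfl; exact hi hj
        simp [this])
    apply hscale c _ hc
    · intro h
      have := congrFun h i
      simp at this
    · rw [sum_eq_single i]
      · rw [sum_eq_single i]
        · simp only [Pi.single_eq_same, mul_one]
          unfold Qm Kc Zm Bm
          rw [if_pos (Or.inl hzi), if_pos ⟨rfl, hzi⟩, if_neg (by tauto)]
          norm_num
        · intro j _ hj
          simp [hj]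
        · simp
      · intro j _ hj
        apply sum_eq_zero
        intro b _
        simp [hj]
      · simp
  · push Not at hall
    have hunit : ∀ a, u a ≠ 0 → ‖z a‖ = 1 := fun a ha => (hz a).resolve_left (hall a ha)
    have hpos : ∀ a, u a ≠ 0 → 0 < u a := fun a ha => lt_of_le_of_ne (hu0 a) (Ne.symm ha)
    -- a second element
    obtain ⟨j, hji, hj⟩ : ∃ j, j ≠ i ∧ u j ≠ 0 := by
      by_contra hcon
      push Not at hcon
      rw [sum_eq_single i] at hrel
      · have h1 := hunit i hi
        rcases mul_eq_zero.1 hrel with h | h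
        · exact hi (by exact_mod_cast h)
        · rw [h] at h1; simp at h1
      · intro a _ ha
        rw [hcon a ha]; simp
      · simp
    have hij : i ≠ j := Ne.symm hji
    have ui := hunit i hi
    have uj := hunit j hj
    have q1 := norm_sq_one ui
    have q2 := norm_sq_one uj
    by_cases hcr : cr (z i) (z j) = 0
    · -- antipodal or equal
      obtain ⟨s, hs1, hs⟩ : ∃ s : ℝ, (s = 1 ∨ s = -1) ∧ z i = s * z j := by
        have h1 : ((z i).re * (z j).re + (z i).im * (z j).im) ^ 2 = 1 := by
          unfold cr at hcr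
          have h2 : ((z i).re * (z j).re + (z i).im * (z j).im) ^ 2 +
            ((z i).re * (z j).im - (z i).im * (z j).re) ^ 2 =
            ((z i).re ^ 2 + (z i).im ^ 2) * ((z j).re ^ 2 + (z j).im ^ 2) := by ring
          rw [hcr, q1, q2] at h2
          linarith
        refine ⟨(z i).re * (z j).re + (z i).im * (z j).im, ?_, ?_⟩
        · exact mul_self_eq_one_iff.1 (by rw [← sq]; exact h1)
        · unfold cr at hcr
          apply Complex.ext
          · rw [Complex.re_ofReal_mul]
            linear_combination (-(z i).re) * q2 + (z j).im * hcr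
          · rw [Complex.im_ofReal_mul]
            linear_combination (-(z i).im) * q2 - (z j).re * hcr
      obtain ⟨c, hc⟩ := hmin (fun a => if a = i then 1 else if a = j then -s else 0) (by
          rw [sum_supp2 _ hij]
          · simp [hji, hs]
          · intro a h1 h2
            simp [h1, h2]) (by
          intro a ha
          have h1 : a ≠ i := by rintro rfl; exact hi ha
          have h2 : a ≠ j := by rintro rfl; exact hj ha
          simp [h1, h2])
      have hci := congrFun hc i
      have hcj := congrFun hc j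
      simp only [if_true, Pi.smul_apply, smul_eq_mul, if_neg hji] at hci hcj
      have hcpos : 0 < c := by
        by_contra hneg
        push Not at hneg
        have := mul_nonpos_of_nonpos_of_nonneg hneg (hu0 i)
        linarith
      have hs2 : s = -1 := by
        rcases hs1 with h | h
        · exfalso
          have := mul_pos hcpos (hpos j hj)
          linarith
        · exact h
      have hzz : z i = -z j := by rw [hs, hs2]; push_cast; ring
      have hne : z i ≠ z j := by
        intro h
        rw [h] at hzz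
        have h3 : z j = 0 := by
          have h4 : (2 : ℂ) * z j = 0 := by linear_combination hzz
          exact (mul_eq_zero.1 h4).resolve_left two_ne_zero
        rw [h3] at uj
        simp at uj
      apply hscale c _ hc
      · intro h
        have := congrFun h i
        simp at this
      · rw [sum_supp2 _ hij]
        · rw [sum_supp2 _ hij, sum_supp2 _ hij]
          · simp only [if_true, if_neg hji]
            rw [Qm_diag ui, Qm_diag uj, Qm_off ui uj hij hne, Qm_off uj ui hji hne.symm,
              cr_swap (z i) (z j), hcr, hs2]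
            have h5 : (z i).re = -(z j).re := by rw [hzz]; simp
            have h6 : (z i).im = -(z j).im := by rw [hzz]; simp
            rw [h5, h6]
            simp only [neg_zero, abs_zero]
            linear_combination (-(3 / 2 : ℝ)) * q2
          · intro a h1 h2
            simp [h1, h2]
          · intro a h1 h2
            simp [h1, h2]
        · intro a h1 h2
          apply sum_eq_zero
          intro b _
          simp [h1, h2]
    · -- a third element
      obtain ⟨k, hki, hkj, hk⟩ : ∃ k, k ≠ i ∧ k ≠ j ∧ u k ≠ 0 := by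
        by_contra hcon
        push Not at hcon
        rw [sum_supp2 _ hij] at hrel
        · have hre := congrArg Complex.re hrel
          have him := congrArg Complex.im hrel
          simp only [Complex.add_re, Complex.add_im, Complex.re_ofReal_mul,
            Complex.im_ofReal_mul, Complex.zero_re, Complex.zero_im] at hre him
          have : u i * cr (z i) (z j) = 0 := by
            unfold cr
            linear_combination (z j).im * hre - (z j).re * him
          rcases mul_eq_zero.1 this with h | h
          · exact hi h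
          · exact hcr h
        · intro a h1 h2
          rw [hcon a h1 h2]; simp
      have hik : i ≠ k := Ne.symm hki
      have hjk : j ≠ k := Ne.symm hkj
      set v : ι → ℝ := fun a => if a = i then cr (z j) (z k) else if a = j then cr (z k) (z i)
        else if a = k then cr (z i) (z j) else 0 with hv
      have hvi : v i = cr (z j) (z k) := by simp [hv]
      have hvj : v j = cr (z k) (z i) := by simp [hv, hji]
      have hvk : v k = cr (z i) (z j) := by simp [hv, hki, hkj]
      have hv0 : ∀ a, a ≠ i → a ≠ j → a ≠ k → v a = 0 := by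
        intro a h1 h2 h3
        simp [hv, h1, h2, h3]
      obtain ⟨c, hc⟩ := hmin v (by
          rw [sum_supp3 _ hij hik hjk]
          · rw [hvi, hvj, hvk]
            exact cr_rel _ _ _
          · intro a h1 h2 h3
            rw [hv0 a h1 h2 h3]; simp) (by
          intro a ha
          apply hv0
          · rintro rfl; exact hi ha
          · rintro rfl; exact hj ha
          · rintro rfl; exact hk ha)
      have hci := congrFun hc i
      have hcj := congrFun hc j
      have hck := congrFun hc k
      simp only [Pi.smul_apply, smul_eq_mul] at hci hcj hck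
      rw [hvi] at hci
      rw [hvj] at hcj
      rw [hvk] at hck
      have hcne : c ≠ 0 := by
        rintro rfl
        rw [zero_mul] at hck
        exact hcr hck
      apply hscale c v hc
      · intro h
        have := congrFun h k
        rw [hvk] at this
        exact hcr this
      · apply three_vanish ui uj (hunit k hk) hij hik hjk _ hvi hvj hvk hv0
        rw [hci, hcj, hck]
        rcases lt_or_gt_of_ne hcne with h | h
        · right
          exact ⟨mul_neg_of_neg_of_pos h (hpos i hi), mul_neg_of_neg_of_pos h (hpos j hj),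
            mul_neg_of_neg_of_pos h (hpos k hk)⟩
        · left
          exact ⟨mul_pos h (hpos i hi), mul_pos h (hpos j hj), mul_pos h (hpos k hk)⟩

lemma Qm_symm {z : ι → ℂ} (hz : ∀ i, z i = 0 ∨ ‖z i‖ = 1) (ε : ℝ) (i j : ι) :
    Qm z ε i j = Qm z ε j i := by
  unfold Qm
  rw [Kc_symm hz i j]
  have h1 : Zm z i j = Zm z j i := by
    unfold Zm
    by_cases h : i = j
    · rw [h]
    · rw [if_neg (by tauto), if_neg (by intro h2; exact h h2.1.symm)]
  have h2 : Bm z i j = Bm z j i := by
    unfold Bm
    by_cases h : i ≠ j ∧ z i = z j ∧ z i ≠ 0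
    · rw [if_pos h, if_pos ⟨h.1.symm, h.2.1.symm, h.2.1 ▸ h.2.2⟩]
    · rw [if_neg h, if_neg (by
        intro h3
        exact h ⟨h3.1.symm, h3.2.1.symm, h3.2.1 ▸ h3.2.2⟩)]
  rw [h1, h2]

end H11Ins
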