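import Pool.Agent.H11Ins.Weyl
import Pool.Agent.H11Ins.Vanish
import Mathlib

/-!
Every polytope of dimension `d` with at most `d + 3` facets is combinatorially equivalent to one
whose vertices lie on a sphere.
-/

open Finset Filter Topology
open scoped RealInnerProductSpace

namespace H11Ins

lemma exists_iso {V : Type*} [AddCommGroup V] [Module ℝ V] [FiniteDimensional ℝ V]
    (B : V →ₗ[ℝ] V →ₗ[ℝ] ℝ) (hsymm : ∀ x y, B x y = B y x) (hpos : ∀ x, x ≠ 0 → 0 < B x x) {d : ℕ}
    (hd : Module.finrank ℝ V = d) :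
    ∃ ψ : EuclideanSpace ℝ (Fin d) ≃ₗ[ℝ] V, ∀ y, B (ψ y) (ψ y) = ‖y‖ ^ 2 := by
  subst hd
  let core : InnerProductSpace.Core ℝ V :=
    { inner := fun x y => B x y
      conj_inner_symm := fun x y => by simpa using hsymm y x
      re_inner_nonneg := fun x => by
        by_cases hx : x = 0
        · simp [hx]
        · simpa using (hpos x hx).le
      add_left := fun x y z => by simp
      smul_left := fun x y r => by simp
      definite := fun x hx => by
        by_contra hne
        have := hpos x hne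
        have h2 : B x x = 0 := hx
        linarith }
  let _ : NormedAddCommGroup V := core.toNormedAddCommGroup
  let _ : InnerProductSpace ℝ V := InnerProductSpace.ofCore core.toCore
  let e := (stdOrthonormalBasis ℝ V).repr
  refine ⟨e.symm.toLinearEquiv, fun y => ?_⟩
  have h1 : ‖e.symm y‖ = ‖y‖ := e.symm.norm_map y
  have h2 := real_inner_self_eq_norm_sq (e.symm y)
  rw [h1] at h2
  exact h2

theorem inscribe {d : ℕ} (hd : 1 ≤ d) {T : Set (EuclideanSpace ℝ (Fin d))} (hT : T.Finite)
    (hcard : T.ncard ≤ d + 3) {x0 : EuclideanSpace ℝ (Fin d)}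
    (hbdd : Bornology.IsBounded (cPol x0 T)) :
    ∃ Q : Set (EuclideanSpace ℝ (Fin d)),
      (∃ S : Set (EuclideanSpace ℝ (Fin d)), S.Finite ∧ Q = convexHull ℝ S) ∧
      (interior Q).Nonempty ∧
      Nonempty ({F : Set (EuclideanSpace ℝ (Fin d)) // IsExposed ℝ (cPol x0 T) F} ≃o
        {F : Set (EuclideanSpace ℝ (Fin d)) // IsExposed ℝ Q F}) ∧
      ∃ (c : EuclideanSpace ℝ (Fin d)) (r : ℝ), 0 < r ∧ ∀ x ∈ Q.extremePoints ℝ, dist x c = r := by
  classical
  have _ : Fintype T := hT.fintype
  have _ : Nonempty (Fin d) := ⟨⟨0, hd⟩⟩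
  -- recession directions
  have hrec : ∀ v : EuclideanSpace ℝ (Fin d), (∀ t ∈ T, ⟪t, v⟫ ≤ 0) → v = 0 := by
    intro v hv
    by_contra hne
    have hn : 0 < ‖v‖ := norm_pos_iff.2 hne
    obtain ⟨R, hR⟩ := hbdd.subset_closedBall x0
    have hmem : x0 + ((|R| + 1) / ‖v‖) • v ∈ cPol x0 T := by
      intro t ht
      rw [add_sub_cancel_left, inner_smul_right]
      have h1 := hv t ht
      have h2 : 0 ≤ (|R| + 1) / ‖v‖ := by positivity
      have := mul_nonpos_of_nonneg_of_nonpos h2 h1
      linarith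
    have h3 := hR hmem
    rw [mem_closedBall_iff_norm, add_sub_cancel_left, norm_smul,
      Real.norm_of_nonneg (by positivity), div_mul_cancel₀ _ hn.ne'] at h3
    have := le_abs_self R
    linarith
  obtain ⟨t0, ht0⟩ : T.Nonempty := by
    by_contra hcon
    rw [Set.not_nonempty_iff_eq_empty] at hcon
    obtain ⟨v, hv⟩ := exists_ne (0 : EuclideanSpace ℝ (Fin d))
    exact hv (hrec v (by rw [hcon]; simp))
  -- the slack space
  let Λ : (ℝ × EuclideanSpace ℝ (Fin d)) →ₗ[ℝ] (T → ℝ) :=
    LinearMap.pi (fun t => LinearMap.fst ℝ ℝ (EuclideanSpace ℝ (Fin d)) -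
      (innerSL ℝ (t : EuclideanSpace ℝ (Fin d))).toLinearMap ∘ₗ
        LinearMap.snd ℝ ℝ (EuclideanSpace ℝ (Fin d)))
  have hΛ : ∀ (p : ℝ × EuclideanSpace ℝ (Fin d)) (t : T),
      Λ p t = p.1 - ⟪(t : EuclideanSpace ℝ (Fin d)), p.2⟫ := by
    intro p t
    simp [Λ]
  have hΛinj : Function.Injective Λ := by
    rw [injective_iff_map_eq_zero]
    rintro ⟨τ, v⟩ h
    have h1 : ∀ t : T, τ = ⟪(t : EuclideanSpace ℝ (Fin d)), v⟫ := by
      intro t
      have := congrFun h t
      rw [hΛ] at this
      simp only [Pi.zero_apply] at this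
      linarith
    rcases le_total τ 0 with h2 | h2
    · have hv : v = 0 := hrec v fun t ht => by rw [← h1 ⟨t, ht⟩]; exact h2
      have h3 := h1 ⟨t0, ht0⟩
      rw [hv, inner_zero_right] at h3
      rw [hv, h3]; rfl
    · have hv : -v = 0 := hrec (-v) fun t ht => by
        rw [inner_neg_right, ← h1 ⟨t, ht⟩]; linarith
      have hv' : v = 0 := neg_eq_zero.1 hv
      have h3 := h1 ⟨t0, ht0⟩
      rw [hv', inner_zero_right] at h3
      rw [hv', h3]; rfl
  set V := LinearMap.range Λ with hV
  have hfV : Module.finrank ℝ V = d + 1 := by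
    rw [hV, LinearMap.finrank_range_of_inj hΛinj, Module.finrank_prod, Module.finrank_self,
      finrank_euclideanSpace_fin, add_comm]
  have hquot : Module.finrank ℝ ((T → ℝ) ⧸ V) ≤ Module.finrank ℝ ℂ := by
    have h1 := Submodule.finrank_quotient_add_finrank V
    rw [hfV, Module.finrank_fintype_fun_eq_card] at h1
    have h2 : Fintype.card T = T.ncard := by
      rw [Set.ncard_eq_toFinset_card', Set.toFinset_card]
    rw [Complex.finrank_real_complex]
    omega
  obtain ⟨f, hf⟩ := finrank_le_iff_exists_linearMap.1 hquot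
  set G : (T → ℝ) →ₗ[ℝ] ℂ := f ∘ₗ V.mkQ with hG
  have hGker : ∀ u, G u = 0 ↔ u ∈ V := by
    intro u
    rw [hG, LinearMap.comp_apply, map_eq_zero_iff f hf, Submodule.mkQ_apply,
      Submodule.Quotient.mk_eq_zero]
  set g : T → ℂ := fun t => G (Pi.single t 1) with hg
  have hGsum : ∀ u, G u = ∑ t, (u t : ℂ) * g t := by
    intro u
    conv_lhs => rw [← Finset.univ_sum_single u]
    rw [map_sum]
    refine sum_congr rfl fun t _ => ?_
    have : (Pi.single t (u t) : T → ℝ) = u t • Pi.single t 1 := by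
      rw [← Pi.single_smul, smul_eq_mul, mul_one]
    rw [this, map_smul, Complex.real_smul]
  set ρ : T → ℝ := fun t => if g t = 0 then 1 else ‖g t‖ with hρ
  have hρpos : ∀ t, 0 < ρ t := by
    intro t
    simp only [hρ]
    split_ifs with h
    · exact one_pos
    · exact norm_pos_iff.2 h
  set z : T → ℂ := fun t => g t / ρ t with hz
  have hρz : ∀ t, (ρ t : ℂ) * z t = g t := by
    intro t
    simp only [hz]
    rw [mul_div_cancel₀]
    exact_mod_cast (hρpos t).ne'
  have hzunit : ∀ t, z t = 0 ∨ ‖z t‖ = 1 := by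
    intro t
    by_cases h : g t = 0
    · left; simp [hz, h]
    · right
      simp only [hz, hρ, if_neg h, norm_div, Complex.norm_real, norm_norm]
      exact div_self (norm_ne_zero_iff.2 h)
  have hVz : ∀ u : T → ℝ, ∑ t, ((ρ t * u t : ℝ) : ℂ) * z t = 0 ↔ u ∈ V := by
    intro u
    rw [← hGker, hGsum]
    have : ∀ t, ((ρ t * u t : ℝ) : ℂ) * z t = (u t : ℂ) * g t := by
      intro t
      rw [← hρz t]
      push_cast
      ring
    simp_rw [this]
  have hVmem : ∀ (τ : ℝ) (v : EuclideanSpace ℝ (Fin d)),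
      (fun t : T => τ - ⟪(t : EuclideanSpace ℝ (Fin d)), v⟫) ∈ V := by
    intro τ v
    refine ⟨(τ, v), ?_⟩
    funext t
    rw [hΛ]
  obtain ⟨ε, hε⟩ := exists_Qm_pos hzunit
  set s0 : ℝ := ∑ t, ρ t with hs0
  have hs0pos : 0 < s0 := sum_pos (fun t _ => hρpos t) ⟨⟨t0, ht0⟩, mem_univ _⟩
  -- the coordinate map
  let τL : EuclideanSpace ℝ (Fin d) →ₗ[ℝ] ℝ :=
    s0⁻¹ • ∑ t : T, ρ t • (innerSL ℝ (t : EuclideanSpace ℝ (Fin d))).toLinearMap
  have hτL : ∀ v, τL v = s0⁻¹ * ∑ t : T, ρ t * ⟪(t : EuclideanSpace ℝ (Fin d)), v⟫ := by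
    intro v
    simp [τL, LinearMap.sum_apply]
  let Θ : EuclideanSpace ℝ (Fin d) →ₗ[ℝ] (T → ℝ) :=
    LinearMap.pi (fun t => ρ t • (τL - (innerSL ℝ (t : EuclideanSpace ℝ (Fin d))).toLinearMap))
  have hΘ : ∀ v t, Θ v t = ρ t * (τL v - ⟪(t : EuclideanSpace ℝ (Fin d)), v⟫) := by
    intro v t
    simp [Θ]
  have hΘz : ∀ v, ∑ t, ((Θ v t : ℝ) : ℂ) * z t = 0 := by
    intro v
    have h1 := (hVz _).2 (hVmem (τL v) v)
    simp_rw [hΘ]
    exact h1
  have hΘsum : ∀ v, ∑ t, Θ v t = 0 := by
    intro v
    simp_rw [hΘ, mul_sub]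
    rw [sum_sub_distrib, ← sum_mul, ← hs0, hτL, ← mul_assoc, mul_inv_cancel₀ hs0pos.ne', one_mul,
      sub_self]
  have hΘ0 : ∀ v, Θ v = 0 → v = 0 := by
    intro v hv
    have h1 : Λ (τL v, v) = 0 := by
      funext t
      have h2 := congrFun hv t
      rw [hΘ, Pi.zero_apply, mul_eq_zero] at h2
      rw [hΛ]
      exact h2.resolve_left (hρpos t).ne'
    have h2 := hΛinj (h1.trans (map_zero Λ).symm)
    exact congrArg Prod.snd h2
  have hΘsurj : ∀ w : T → ℝ, ∑ t, (w t : ℂ) * z t = 0 → ∑ t, w t = 0 → ∃ v, Θ v = w := by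
    intro w h1 h2
    have h3 : (fun t => w t / ρ t) ∈ V := by
      rw [← hVz]
      have : ∀ t, ρ t * (w t / ρ t) = w t := fun t => mul_div_cancel₀ _ (hρpos t).ne'
      simp_rw [this]
      exact h1
    obtain ⟨⟨τ, v⟩, hp⟩ := h3
    have h4 : ∀ t : T, w t = ρ t * (τ - ⟪(t : EuclideanSpace ℝ (Fin d)), v⟫) := by
      intro t
      have h5 := congrFun hp t
      rw [hΛ] at h5
      simp only at h5
      rw [h5, mul_div_cancel₀ _ (hρpos t).ne']
    have h6 : τ = τL v := by
      have h7 : ∑ t, w t = τ * s0 - ∑ t : T, ρ t * ⟪(t : EuclideanSpace ℝ (Fin d)), v⟫ := by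
        rw [hs0, mul_sum, ← sum_sub_distrib]
        exact sum_congr rfl fun t _ => by rw [h4 t]; ring
      rw [h2] at h7
      rw [hτL]
      field_simp
      linarith
    refine ⟨v, ?_⟩
    funext t
    rw [hΘ, ← h6, ← h4]
  -- the inner product
  let qB : (T → ℝ) →ₗ[ℝ] (T → ℝ) →ₗ[ℝ] ℝ :=
    LinearMap.mk₂ ℝ (fun u w => ∑ i, ∑ j, Qm z ε i j * u i * w j)
      (fun u u' w => by
        simp only [Pi.add_apply]
        rw [← sum_add_distrib]
        refine sum_congr rfl fun i _ => ?_
        rw [← sum_add_distrib]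
        refine sum_congr rfl fun j _ => by ring)
      (fun c u w => by
        simp only [Pi.smul_apply, smul_eq_mul]
        rw [mul_sum]
        refine sum_congr rfl fun i _ => ?_
        rw [mul_sum]
        refine sum_congr rfl fun j _ => by ring)
      (fun u w w' => by
        simp only [Pi.add_apply]
        rw [← sum_add_distrib]
        refine sum_congr rfl fun i _ => ?_
        rw [← sum_add_distrib]
        refine sum_congr rfl fun j _ => by ring)
      (fun c u w => by
        simp only [Pi.smul_apply, smul_eq_mul]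
        rw [mul_sum]
        refine sum_congr rfl fun i _ => ?_
        rw [mul_sum]
        refine sum_congr rfl fun j _ => by ring)
  have hqB : ∀ u w, qB u w = ∑ i, ∑ j, Qm z ε i j * u i * w j := fun u w => rfl
  have hqsymm : ∀ u w, qB u w = qB w u := by
    intro u w
    rw [hqB, hqB, sum_comm]
    refine sum_congr rfl fun i _ => sum_congr rfl fun j _ => ?_
    rw [Qm_symm hzunit ε j i]
    ring
  obtain ⟨ψ0, hψ0⟩ := exists_iso (V := EuclideanSpace ℝ (Fin d)) (qB.compl₁₂ Θ Θ)
    (fun x y => by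
      rw [LinearMap.compl₁₂_apply, LinearMap.compl₁₂_apply]
      exact hqsymm _ _)
    (fun x hx => by
      rw [LinearMap.compl₁₂_apply, hqB]
      exact hε (Θ x) (hΘz x) (hΘsum x) (fun h => hx (hΘ0 x h))) finrank_euclideanSpace_fin
  set ψ : EuclideanSpace ℝ (Fin d) →ₗ[ℝ] (T → ℝ) := Θ ∘ₗ ψ0.toLinearMap with hψ
  have hψn : ∀ y, qB (ψ y) (ψ y) = ‖y‖ ^ 2 := by
    intro y
    have := hψ0 y
    rw [LinearMap.compl₁₂_apply] at this
    exact this
  have hψz : ∀ y, ∑ t, ((ψ y t : ℝ) : ℂ) * z t = 0 := fun y => hΘz _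
  have hψsum : ∀ y, ∑ t, ψ y t = 0 := fun y => hΘsum _
  have hψsurj : ∀ w : T → ℝ, ∑ t, (w t : ℂ) * z t = 0 → ∑ t, w t = 0 → ∃ y, ψ y = w := by
    intro w h1 h2
    obtain ⟨v, hv⟩ := hΘsurj w h1 h2
    refine ⟨ψ0.symm v, ?_⟩
    rw [hψ, LinearMap.comp_apply]
    have : ψ0.toLinearMap (ψ0.symm v) = v := ψ0.apply_symm_apply v
    rw [this, hv]
  -- base point
  set o : T → ℝ := fun t => ρ t / s0 with ho
  have hopos : ∀ t, 0 < o t := fun t => div_pos (hρpos t) hs0pos
  have hosum : ∑ t, o t = 1 := by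
    simp only [ho]
    rw [← sum_div, ← hs0, div_self hs0pos.ne']
  have hoz : ∑ t, ((o t : ℝ) : ℂ) * z t = 0 := by
    have h1 := (hVz _).2 (hVmem (s0⁻¹) 0)
    have h2 : ∀ t : T, ρ t * (s0⁻¹ - ⟪(t : EuclideanSpace ℝ (Fin d)),
        (0 : EuclideanSpace ℝ (Fin d))⟫) = o t := by
      intro t
      rw [inner_zero_right, sub_zero]
      rfl
    simp_rw [h2] at h1
    exact h1
  -- the new polytope
  set a' : T → StrongDual ℝ (EuclideanSpace ℝ (Fin d)) := fun t =>
    LinearMap.toContinuousLinearMap (-(LinearMap.proj t ∘ₗ ψ)) with ha'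
  have ha'e : ∀ t y, a' t y = -ψ y t := by
    intro t y
    simp [ha']
  set Q := Pol a' o with hQ
  have hQmem : ∀ y, y ∈ Q ↔ ∀ t, 0 ≤ o t + ψ y t := by
    intro y
    constructor
    · intro h t
      have := h t
      rw [ha'e] at this
      linarith
    · intro h t
      rw [ha'e]
      linarith [h t]
  have hQtight : ∀ y t, t ∈ tight a' o y ↔ o t + ψ y t = 0 := by
    intro y t
    show a' t y = o t ↔ _
    rw [ha'e]
    constructor <;> intro h <;> linarith
  -- the old polytope
  set a : T → StrongDual ℝ (EuclideanSpace ℝ (Fin d)) := fun t =>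
    innerSL ℝ (t : EuclideanSpace ℝ (Fin d)) with ha
  set b : T → ℝ := fun t => 1 + ⟪(t : EuclideanSpace ℝ (Fin d)), x0⟫ with hb
  have hPa : cPol x0 T = Pol a b := by
    ext x
    constructor
    · intro h t
      have := h t t.2
      rw [inner_sub_right] at this
      simp only [ha, hb, innerSL_apply_apply]
      linarith
    · intro h t ht
      have := h ⟨t, ht⟩
      simp only [ha, hb, innerSL_apply_apply] at this
      rw [inner_sub_right]
      linarith
  have hPtight : ∀ x t, t ∈ tight a b x ↔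
      1 - ⟪(t : EuclideanSpace ℝ (Fin d)), x - x0⟫ = 0 := by
    intro x t
    show a t x = b t ↔ _
    simp only [ha, hb, innerSL_apply_apply]
    rw [inner_sub_right]
    constructor <;> intro h <;> linarith
  have h1 : ∀ x ∈ Pol a b, ∃ x' ∈ Pol a' o, tight a' o x' = tight a b x := by
    intro x hx
    rw [← hPa] at hx
    set u : T → ℝ := fun t => 1 - ⟪(t : EuclideanSpace ℝ (Fin d)), x - x0⟫ with hu
    have hu0 : ∀ t, 0 ≤ u t := fun t => by
      have := hx t t.2
      simp only [hu]
      linarith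
    have huV : u ∈ V := hVmem 1 (x - x0)
    have hune : ∃ t, u t ≠ 0 := by
      by_contra hcon
      push Not at hcon
      have h2 : Λ (1, x - x0) = 0 := by
        funext t
        rw [hΛ]
        exact hcon t
      have h3 := hΛinj (h2.trans (map_zero Λ).symm)
      have h4 := congrArg Prod.fst h3
      simp at h4
    set s := ∑ t, ρ t * u t with hs
    have hspos : 0 < s := by
      obtain ⟨t, ht⟩ := hune
      exact sum_pos' (fun t _ => mul_nonneg (hρpos t).le (hu0 t))
        ⟨t, mem_univ _, mul_pos (hρpos t) (lt_of_le_of_ne (hu0 t) (Ne.symm ht))⟩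
    obtain ⟨y, hy⟩ := hψsurj (fun t => ρ t * u t / s - o t) (by
        have h2 := (hVz u).2 huV
        have h3 : ∀ t, ((ρ t * u t / s - o t : ℝ) : ℂ) * z t =
            (s : ℂ)⁻¹ * (((ρ t * u t : ℝ) : ℂ) * z t) - (o t : ℂ) * z t := by
          intro t
          push_cast
          ring
        simp_rw [h3]
        rw [sum_sub_distrib, ← mul_sum, h2, hoz]
        simp) (by
        rw [sum_sub_distrib, ← sum_div, ← hs, div_self hspos.ne', hosum, sub_self])
    have hyt : ∀ t, o t + ψ y t = ρ t * u t / s := by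
      intro t
      rw [hy]
      ring
    refine ⟨y, (hQmem y).2 fun t => ?_, ?_⟩
    · rw [hyt]
      exact div_nonneg (mul_nonneg (hρpos t).le (hu0 t)) hspos.le
    · ext t
      rw [hQtight, hPtight, hyt, div_eq_zero_iff, mul_eq_zero]
      constructor
      · rintro ((h | h) | h)
        · exact absurd h (hρpos t).ne'
        · exact h
        · exact absurd h hspos.ne'
      · intro h
        exact Or.inl (Or.inr h)
  have h2 : ∀ x' ∈ Pol a' o, ∃ x ∈ Pol a b, tight a b x = tight a' o x' := by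
    intro y hy
    have hy' := (hQmem y).1 hy
    have huV : (fun t => (o t + ψ y t) / ρ t) ∈ V := by
      rw [← hVz]
      have h3 : ∀ t, ((ρ t * ((o t + ψ y t) / ρ t) : ℝ) : ℂ) * z t =
          (o t : ℂ) * z t + (ψ y t : ℂ) * z t := by
        intro t
        rw [mul_div_cancel₀ _ (hρpos t).ne']
        push_cast
        ring
      simp_rw [h3]
      rw [sum_add_distrib, hoz, hψz, add_zero]
    obtain ⟨⟨τ, v⟩, hp⟩ := huV
    have hp' : ∀ t : T, τ - ⟪(t : EuclideanSpace ℝ (Fin d)), v⟫ = (o t + ψ y t) / ρ t := by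
      intro t
      have := congrFun hp t
      rw [hΛ] at this
      exact this
    have hnn : ∀ t, 0 ≤ (o t + ψ y t) / ρ t := fun t => div_nonneg (hy' t) (hρpos t).le
    have hτ : 0 < τ := by
      by_contra hneg
      push Not at hneg
      have hv : v = 0 := hrec v fun t ht => by
        have h3 := hp' ⟨t, ht⟩
        have h4 := hnn ⟨t, ht⟩
        rw [← h3] at h4
        simp only at h4
        linarith
      have h5 : ∀ t, o t + ψ y t = 0 := by
        intro t
        have h6 := hp' t
        rw [hv, inner_zero_right, sub_zero] at h6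
        have h7 := hnn t
        rw [← h6] at h7
        have h8 : τ = 0 := le_antisymm hneg h7
        rw [h8] at h6
        rcases div_eq_zero_iff.1 h6.symm with h9 | h9
        · exact h9
        · exact absurd h9 (hρpos t).ne'
      have h6 : ∑ t, (o t + ψ y t) = 1 := by
        rw [sum_add_distrib, hosum, hψsum, add_zero]
      simp_rw [h5] at h6
      simp at h6
    refine ⟨x0 + τ⁻¹ • v, ?_, ?_⟩
    · rw [← hPa]
      intro t ht
      have h3 := hp' ⟨t, ht⟩
      have h4 := hnn ⟨t, ht⟩
      rw [← h3] at h4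
      simp only at h4
      rw [add_sub_cancel_left, inner_smul_right, inv_mul_le_iff₀ hτ, mul_one]
      linarith
    · ext t
      rw [hPtight, hQtight, add_sub_cancel_left, inner_smul_right]
      have h3 := hp' t
      constructor
      · intro h
        have h4 : τ - ⟪(t : EuclideanSpace ℝ (Fin d)), v⟫ = 0 := by
          field_simp at h
          linarith
        rw [h4] at h3
        rcases div_eq_zero_iff.1 h3.symm with h9 | h9
        · exact h9
        · exact absurd h9 (hρpos t).ne'
      · intro h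
        rw [h, zero_div] at h3
        have h4 : ⟪(t : EuclideanSpace ℝ (Fin d)), v⟫ = τ := by linarith
        rw [h4, inv_mul_cancel₀ hτ.ne', sub_self]
  -- boundedness
  have hQb : Bornology.IsBounded Q := by
    rw [Metric.isBounded_iff_subset_closedBall 0]
    refine ⟨√(∑ i, ∑ j, |Qm z ε i j|), fun y hy => ?_⟩
    rw [mem_closedBall_zero_iff]
    apply Real.le_sqrt_of_sq_le
    rw [← hψn, hqB]
    have hy' := (hQmem y).1 hy
    have hle : ∀ t, |ψ y t| ≤ 1 := by
      intro t
      have h3 : o t + ψ y t ≤ ∑ t, (o t + ψ y t) :=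
        single_le_sum (fun i _ => hy' i) (mem_univ t)
      rw [sum_add_distrib, hosum, hψsum, add_zero] at h3
      have h4 : o t ≤ ∑ t, o t := single_le_sum (fun i _ => (hopos i).le) (mem_univ t)
      rw [hosum] at h4
      have h5 := hy' t
      have h6 := hopos t
      rw [abs_le]
      constructor <;> linarith
    apply sum_le_sum
    intro i _
    apply sum_le_sum
    intro j _
    calc Qm z ε i j * ψ y i * ψ y j ≤ |Qm z ε i j * ψ y i * ψ y j| := le_abs_self _
      _ = |Qm z ε i j| * |ψ y i| * |ψ y j| := by rw [abs_mul, abs_mul]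
      _ ≤ |Qm z ε i j| * 1 * 1 := by
          gcongr
          · exact hle i
          · exact hle j
      _ = _ := by ring
  have hQhull : Q = convexHull ℝ (Q.extremePoints ℝ) := hull_of_bounded a' o hQb
  have hQint : (interior Q).Nonempty := by
    refine ⟨0, ?_⟩
    rw [mem_interior]
    refine ⟨⋂ t, {y | a' t y < o t}, ?_, ?_, ?_⟩
    · intro y hy t
      rw [Set.mem_iInter] at hy
      exact (hy t).le
    · exact isOpen_iInter_of_finite fun t => isOpen_lt (a' t).continuous continuous_const
    · rw [Set.mem_iInter]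
      intro t
      show a' t 0 < o t
      rw [map_zero]
      exact hopos t
  -- vertices are isotropic
  have hiso : ∀ y ∈ Q.extremePoints ℝ, qB (o + ψ y) (o + ψ y) = 0 := by
    intro y hy
    have hy' := (hQmem y).1 hy.1
    have hsum1 : ∑ t, (o + ψ y) t = 1 := by
      simp only [Pi.add_apply]
      rw [sum_add_distrib, hosum, hψsum, add_zero]
    have hzsum : ∑ t, (((o + ψ y) t : ℝ) : ℂ) * z t = 0 := by
      have h3 : ∀ t, (((o + ψ y) t : ℝ) : ℂ) * z t = (o t : ℂ) * z t + (ψ y t : ℂ) * z t := by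
        intro t
        simp only [Pi.add_apply]
        push_cast
        ring
      simp_rw [h3]
      rw [sum_add_distrib, hoz, hψz, add_zero]
    rw [hqB]
    apply Qm_vanish hzunit (u := o + ψ y) hy'
    · intro h
      rw [h] at hsum1
      simp at hsum1
    · exact hzsum
    · intro v hv hvs
      set c := ∑ t, v t with hc
      refine ⟨c, ?_⟩
      obtain ⟨η, hη⟩ := hψsurj (v - c • (o + ψ y)) (by
          have h3 : ∀ t, (((v - c • (o + ψ y)) t : ℝ) : ℂ) * z t =
              (v t : ℂ) * z t - (c : ℂ) * ((((o + ψ y) t : ℝ) : ℂ) * z t) := by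
            intro t
            simp only [Pi.sub_apply, Pi.smul_apply, smul_eq_mul]
            push_cast
            ring
          simp_rw [h3]
          rw [sum_sub_distrib, ← mul_sum, hv, hzsum]
          simp) (by
          simp only [Pi.sub_apply, Pi.smul_apply, smul_eq_mul]
          rw [sum_sub_distrib, ← mul_sum, hsum1, ← hc]
          ring)
      -- move along `η`
      have hmove : ∀ σ : ℝ, (σ = 1 ∨ σ = -1) → ∀ᶠ s : ℝ in 𝓝[>] 0,
          y + (σ * s) • η ∈ Q := by
        intro σ _
        have h3 : ∀ t, ∀ᶠ s : ℝ in 𝓝[>] 0, 0 ≤ o t + ψ (y + (σ * s) • η) t := by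
          intro t
          rcases (hy' t).lt_or_eq with h4 | h4
          · have hcont : Continuous (fun s : ℝ => o t + (ψ y t + (σ * s) * ψ η t)) := by
              fun_prop
            have h5 := hcont.tendsto 0
            simp only [mul_zero, zero_mul, add_zero] at h5
            have h5' : Tendsto (fun s : ℝ => o t + (ψ y t + (σ * s) * ψ η t)) (𝓝[>] 0)
                (𝓝 (o t + ψ y t)) := h5.mono_left nhdsWithin_le_nhds
            have h6 := h5'.eventually (lt_mem_nhds h4)
            refine h6.mono fun s hs => ?_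
            rw [map_add, map_smul]
            simp only [Pi.add_apply, Pi.smul_apply, smul_eq_mul]
            exact le_of_lt hs
          · refine Eventually.of_forall fun s => ?_
            have h7 : (o + ψ y) t = 0 := h4.symm
            have h8 : ψ η t = 0 := by
              rw [hη]
              simp only [Pi.sub_apply, Pi.smul_apply, smul_eq_mul]
              rw [hvs t h7, h7]
              ring
            rw [map_add, map_smul]
            simp only [Pi.add_apply, Pi.smul_apply, smul_eq_mul]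
            rw [h8, mul_zero, add_zero]
            exact h4.le
        exact (eventually_all.2 h3).mono fun s hs => (hQmem _).2 hs
      have hpos : ∀ᶠ s : ℝ in 𝓝[>] 0, 0 < s := eventually_mem_nhdsWithin
      obtain ⟨s, hs0, hs1, hs2⟩ := (hpos.and ((hmove 1 (Or.inl rfl)).and
        (hmove (-1) (Or.inr rfl)))).exists
      have hseg : y ∈ openSegment ℝ (y + (1 * s) • η) (y + (-1 * s) • η) := by
        refine ⟨1 / 2, 1 / 2, by norm_num, by norm_num, by norm_num, ?_⟩
        rw [← smul_add]
        have : y + (1 * s) • η + (y + (-1 * s) • η) = (2 : ℝ) • y := by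
          rw [two_smul, one_mul, neg_one_mul, neg_smul]
          abel
        rw [this, smul_smul]
        norm_num
      have h9 := hy.2 hs1 hs2 hseg
      have h10 : (1 * s) • η = 0 := by
        have h11 : y + (1 * s) • η = y := h9
        simpa using h11
      have h12 : η = 0 := by
        rcases smul_eq_zero.1 h10 with h | h
        · rw [one_mul] at h
          exact absurd h hs0.ne'
        · exact h
      rw [h12, map_zero] at hη
      exact (sub_eq_zero.1 hη.symm)
  -- the sphere
  let L : EuclideanSpace ℝ (Fin d) →ₗ[ℝ] ℝ := (qB o) ∘ₗ ψ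
  set c0 : EuclideanSpace ℝ (Fin d) :=
    (InnerProductSpace.toDual ℝ (EuclideanSpace ℝ (Fin d))).symm L.toContinuousLinearMap with hc0
  have hc0i : ∀ y, ⟪c0, y⟫ = qB o (ψ y) := by
    intro y
    rw [hc0, InnerProductSpace.toDual_symm_apply]
    rfl
  have hdist : ∀ y ∈ Q.extremePoints ℝ, ‖y + c0‖ ^ 2 = ‖c0‖ ^ 2 - qB o o := by
    intro y hy
    have h3 := hiso y hy
    have h4 : qB (o + ψ y) (o + ψ y) = qB o o + 2 * qB o (ψ y) + qB (ψ y) (ψ y) := by
      rw [map_add, LinearMap.map_add₂, LinearMap.map_add₂, hqsymm (ψ y) o]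
      ring
    rw [h4, hψn, ← hc0i] at h3
    rw [norm_add_sq_real, real_inner_comm]
    linarith
  refine ⟨Q, ⟨_, extreme_finite a' o, hQhull⟩, hQint, ?_, -c0, √(‖c0‖ ^ 2 - qB o o), ?_, ?_⟩
  · rw [hPa]
    exact face_iso h1 h2
  · by_contra hneg
    push Not at hneg
    have hr0 : √(‖c0‖ ^ 2 - qB o o) = 0 := le_antisymm hneg (Real.sqrt_nonneg _)
    have hsub : Q.extremePoints ℝ ⊆ {-c0} := by
      intro y hy
      have h3 := hdist y hy
      rw [← h3, Real.sqrt_sq (norm_nonneg _)] at hr0
      rw [Set.mem_singleton_iff]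
      exact eq_neg_of_add_eq_zero_left (norm_eq_zero.1 hr0)
    have hQsub : Q ⊆ {-c0} := by
      rw [hQhull]
      exact convexHull_min hsub (convex_singleton _)
    obtain ⟨y, hy⟩ := hQint
    have h4 := interior_mono hQsub hy
    rw [interior_singleton] at h4
    exact h4
  · intro y hy
    rw [dist_eq_norm, sub_neg_eq_add, ← hdist y hy, Real.sqrt_sq (norm_nonneg _)]

end H11Ins
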