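import Mathlib

/-!
Elementary polytope theory: bounded intersections of half spaces, their faces, and the
half space representation of a convex hull of finitely many points.
-/

open Finset Filter Topology

namespace H11Ins

section general

variable {E : Type*} [NormedAddCommGroup E] [NormedSpace ℝ E] {ι : Type*} [Finite ι]

/-- intersection of half spaces -/
def Pol (a : ι → StrongDual ℝ E) (b : ι → ℝ) : Set E := {x | ∀ i, a i x ≤ b i}

/-- set of tight constraints -/
def tight (a : ι → StrongDual ℝ E) (b : ι → ℝ) (x : E) : Set ι := {i | a i x = b i}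

omit [Finite ι] in
lemma Pol_convex (a : ι → StrongDual ℝ E) (b : ι → ℝ) : Convex ℝ (Pol a b) := by
  have : Pol a b = ⋂ i, {x | a i x ≤ b i} := by
    ext x; simp [Pol]
  rw [this]
  exact convex_iInter fun i => convex_halfSpace_le (a i).toLinearMap.isLinear (b i)

omit [Finite ι] in
lemma Pol_closed (a : ι → StrongDual ℝ E) (b : ι → ℝ) : IsClosed (Pol a b) := by
  have : Pol a b = ⋂ i, {x | a i x ≤ b i} := by
    ext x; simp [Pol]
  rw [this]
  exact isClosed_iInter fun i => isClosed_le (a i).continuous continuous_const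

/-- moving a little beyond `y` in the direction away from `x` -/
lemma exists_extend {a : ι → StrongDual ℝ E} {b : ι → ℝ} {x y : E} (hy : y ∈ Pol a b)
    (h : ∀ i, a i y = b i → a i x = b i) : ∃ t : ℝ, 0 < t ∧ y + t • (y - x) ∈ Pol a b := by
  have h1 : ∀ i, ∀ᶠ t : ℝ in 𝓝[>] 0, a i (y + t • (y - x)) ≤ b i := by
    intro i
    rcases (hy i).lt_or_eq with h2 | h2
    · have hc : Tendsto (fun t : ℝ => a i (y + t • (y - x))) (𝓝[>] 0) (𝓝 (a i y)) := by
        have h3 : Continuous (fun t : ℝ => a i (y + t • (y - x))) := by fun_prop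
        have h4 := h3.tendsto 0
        simp only [zero_smul, add_zero] at h4
        exact h4.mono_left nhdsWithin_le_nhds
      exact (hc.eventually (gt_mem_nhds h2)).mono fun t ht => le_of_lt ht
    · refine Eventually.of_forall fun t => ?_
      rw [map_add, map_smul, map_sub, h2, h i h2, sub_self, smul_zero, add_zero]
  have h2 : ∀ᶠ t : ℝ in 𝓝[>] 0, ∀ i, a i (y + t • (y - x)) ≤ b i := eventually_all.2 h1
  have h3 : ∀ᶠ t : ℝ in 𝓝[>] 0, 0 < t := eventually_mem_nhdsWithin
  obtain ⟨t, ht1, ht2⟩ := (h3.and h2).exists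
  exact ⟨t, ht1, ht2⟩

/-- relative interior points of exposed faces -/
lemma face_char {a : ι → StrongDual ℝ E} {b : ι → ℝ} {F : Set E} (hF : IsExposed ℝ (Pol a b) F)
    (hne : F.Nonempty) : ∃ y ∈ F, (∀ x ∈ F, tight a b y ⊆ tight a b x) ∧
      ∀ x ∈ Pol a b, tight a b y ⊆ tight a b x → x ∈ F := by
  obtain ⟨l, hl⟩ := hF hne
  have hFP : ∀ x ∈ F, x ∈ Pol a b := fun x hx => by rw [hl] at hx; exact hx.1
  obtain ⟨y, hyF, hymin⟩ : ∃ y ∈ F, ∀ x ∈ F, (tight a b y).ncard ≤ (tight a b x).ncard := by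
    obtain ⟨n, hn⟩ : ∃ n, n ∈ (fun x => (tight a b x).ncard) '' F := by
      obtain ⟨x, hx⟩ := hne
      exact ⟨_, x, hx, rfl⟩
    have hmin := WellFounded.min_mem wellFounded_lt ((fun x => (tight a b x).ncard) '' F)
      ⟨n, hn⟩
    obtain ⟨y, hyF, hy⟩ := hmin
    refine ⟨y, hyF, fun x hx => ?_⟩
    have h1 := WellFounded.not_lt_min wellFounded_lt ((fun x => (tight a b x).ncard) '' F)
      (x := (tight a b x).ncard) ⟨x, hx, rfl⟩
    simp only at hy
    rw [hy]
    exact not_lt.1 h1
  have hyP := hFP y hyF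
  have hysub : ∀ x ∈ F, tight a b y ⊆ tight a b x := by
    intro x hx
    have hxP := hFP x hx
    set m : E := (1 / 2 : ℝ) • x + (1 / 2 : ℝ) • y with hm
    have hmP : m ∈ Pol a b := (Pol_convex a b) hxP hyP (by norm_num) (by norm_num) (by norm_num)
    have hmF : m ∈ F := by
      rw [hl] at hx hyF ⊢
      refine ⟨hmP, fun z hz => ?_⟩
      have h1 := hx.2 z hz
      have h2 := hyF.2 z hz
      rw [hm, map_add, map_smul, map_smul, smul_eq_mul, smul_eq_mul]
      linarith
    have htm : tight a b m ⊆ tight a b x ∩ tight a b y := by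
      intro i hi
      have h1 : a i m = b i := hi
      rw [hm, map_add, map_smul, map_smul, smul_eq_mul, smul_eq_mul] at h1
      have h2 := hxP i
      have h3 := hyP i
      constructor
      · show a i x = b i
        linarith
      · show a i y = b i
        linarith
    have h4 := hymin m hmF
    have h5 : tight a b m = tight a b y :=
      Set.eq_of_subset_of_ncard_le (fun i hi => (htm hi).2) h4 (Set.toFinite _)
    rw [← h5]
    exact fun i hi => (htm hi).1
  refine ⟨y, hyF, hysub, fun x hx hsub => ?_⟩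
  obtain ⟨t, ht, hmem⟩ := exists_extend hyP (x := x) (fun i hi => hsub hi)
  rw [hl] at hyF ⊢
  refine ⟨hx, fun z hz => ?_⟩
  have h1 := hyF.2 _ hmem
  rw [map_add, map_smul, map_sub, smul_eq_mul] at h1
  have h2 : l y ≤ l x := by
    by_contra hneg
    push Not at hneg
    have : 0 < t * (l y - l x) := mul_pos ht (by linarith)
    linarith
  exact (hyF.2 z hz).trans h2

variable {E' : Type*} [NormedAddCommGroup E'] [NormedSpace ℝ E']

/-- transport of a set along equality of tight sets -/
def trans (a : ι → StrongDual ℝ E) (b : ι → ℝ) (a' : ι → StrongDual ℝ E') (b' : ι → ℝ)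
    (F : Set E) : Set E' := {x' ∈ Pol a' b' | ∃ x ∈ F, tight a b x = tight a' b' x'}

lemma trans_exposed {a : ι → StrongDual ℝ E} {b : ι → ℝ} {a' : ι → StrongDual ℝ E'} {b' : ι → ℝ}
    (h1 : ∀ x ∈ Pol a b, ∃ x' ∈ Pol a' b', tight a' b' x' = tight a b x)
    (h2 : ∀ x' ∈ Pol a' b', ∃ x ∈ Pol a b, tight a b x = tight a' b' x')
    {F : Set E} (hF : IsExposed ℝ (Pol a b) F) :
    IsExposed ℝ (Pol a' b') (trans a b a' b' F) := by
  classical
  intro hne'
  have hne : F.Nonempty := by
    obtain ⟨x', _, x, hx, _⟩ := hne'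
    exact ⟨x, hx⟩
  obtain ⟨y, hyF, hysub, hychar⟩ := face_char hF hne
  have hFP : ∀ x ∈ F, x ∈ Pol a b := fun x hx => hF.subset hx
  have _ : Fintype ι := Fintype.ofFinite ι
  set I : Finset ι := univ.filter (fun i => i ∈ tight a b y) with hI
  have hmemI : ∀ i, i ∈ I ↔ i ∈ tight a b y := fun i => by simp [hI]
  refine ⟨∑ i ∈ I, a' i, ?_⟩
  have hle : ∀ x' ∈ Pol a' b', (∑ i ∈ I, a' i) x' ≤ ∑ i ∈ I, b' i := by
    intro x' hx'
    rw [_root_.sum_apply]
    exact sum_le_sum fun i _ => hx' i
  have heq : ∀ x' ∈ Pol a' b', ((∑ i ∈ I, a' i) x' = ∑ i ∈ I, b' i ↔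
      tight a b y ⊆ tight a' b' x') := by
    intro x' hx'
    rw [_root_.sum_apply, sum_eq_sum_iff_of_le fun i _ => hx' i]
    constructor
    · intro h i hi
      exact h i ((hmemI i).2 hi)
    · intro h i hi
      exact h ((hmemI i).1 hi)
  obtain ⟨y', hy'P, hy't⟩ := h1 y (hFP y hyF)
  have hy'eq : (∑ i ∈ I, a' i) y' = ∑ i ∈ I, b' i := (heq y' hy'P).2 (by rw [hy't])
  ext x'
  constructor
  · rintro ⟨hx'P, x, hx, hxt⟩
    refine ⟨hx'P, fun z hz => ?_⟩
    rw [(heq x' hx'P).2 (by rw [← hxt]; exact hysub x hx)]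
    exact hle z hz
  · rintro ⟨hx'P, hmax⟩
    refine ⟨hx'P, ?_⟩
    have h3 := hmax y' hy'P
    rw [hy'eq] at h3
    have h4 := (heq x' hx'P).1 (le_antisymm (hle x' hx'P) h3)
    obtain ⟨x, hx, hxt⟩ := h2 x' hx'P
    exact ⟨x, hychar x hx (by rw [hxt]; exact h4), hxt⟩

lemma trans_trans {a : ι → StrongDual ℝ E} {b : ι → ℝ} {a' : ι → StrongDual ℝ E'} {b' : ι → ℝ}
    (h1 : ∀ x ∈ Pol a b, ∃ x' ∈ Pol a' b', tight a' b' x' = tight a b x)
    {F : Set E} (hF : IsExposed ℝ (Pol a b) F) :
    trans a' b' a b (trans a b a' b' F) = F := by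
  ext x
  constructor
  · rintro ⟨hxP, x', ⟨_, x'', hx'', ht⟩, ht2⟩
    obtain ⟨y, hyF, hysub, hychar⟩ := face_char hF ⟨x'', hx''⟩
    apply hychar x hxP
    rw [← ht2, ← ht]
    exact hysub x'' hx''
  · intro hx
    have hxP := hF.subset hx
    obtain ⟨x', hx'P, hx't⟩ := h1 x hxP
    exact ⟨hxP, x', ⟨hx'P, x, hx, hx't.symm⟩, hx't⟩

/-- two polyhedra with the same tight sets have isomorphic face lattices -/
lemma face_iso {a : ι → StrongDual ℝ E} {b : ι → ℝ} {a' : ι → StrongDual ℝ E'} {b' : ι → ℝ}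
    (h1 : ∀ x ∈ Pol a b, ∃ x' ∈ Pol a' b', tight a' b' x' = tight a b x)
    (h2 : ∀ x' ∈ Pol a' b', ∃ x ∈ Pol a b, tight a b x = tight a' b' x') :
    Nonempty ({F : Set E // IsExposed ℝ (Pol a b) F} ≃o
      {F : Set E' // IsExposed ℝ (Pol a' b') F}) := by
  refine ⟨{
    toFun := fun F => ⟨trans a b a' b' F.1, trans_exposed h1 h2 F.2⟩
    invFun := fun F => ⟨trans a' b' a b F.1, trans_exposed h2 h1 F.2⟩
    left_inv := fun F => Subtype.ext (trans_trans h1 F.2)
    right_inv := fun F => Subtype.ext (trans_trans h2 F.2)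
    map_rel_iff' := ?_ }⟩
  intro F G
  constructor
  · intro h
    have h3 : trans a b a' b' F.1 ⊆ trans a b a' b' G.1 := h
    have h4 : trans a' b' a b (trans a b a' b' F.1) ⊆ trans a' b' a b (trans a b a' b' G.1) := by
      intro x hx
      obtain ⟨hP, x', hx', ht⟩ := hx
      exact ⟨hP, x', h3 hx', ht⟩
    rw [trans_trans h1 F.2, trans_trans h1 G.2] at h4
    exact h4
  · intro h x' hx'
    obtain ⟨hP, x, hx, ht⟩ := hx'
    exact ⟨hP, x, h hx, ht⟩

/-- a bounded intersection of half spaces has finitely many extreme points -/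
lemma extreme_finite (a : ι → StrongDual ℝ E) (b : ι → ℝ) :
    ((Pol a b).extremePoints ℝ).Finite := by
  have hinj : Set.InjOn (tight a b) ((Pol a b).extremePoints ℝ) := by
    intro x hx y hy hxy
    obtain ⟨t, ht, hmem⟩ := exists_extend hx.1 (x := y) (fun i hi => by
      have : i ∈ tight a b x := hi
      rw [hxy] at this
      exact this)
    by_contra hne
    have hseg : x ∈ openSegment ℝ (x + t • (x - y)) y := by
      refine ⟨1 / (1 + t), t / (1 + t), by positivity, by positivity, ?_, ?_⟩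
      · field_simp
      · have h1 : (1 + t) ≠ 0 := by positivity
        rw [smul_add, smul_smul, smul_sub]
        have e1 : (1 / (1 + t) * t) = t / (1 + t) := by ring
        rw [e1]
        have e2 : (1 / (1 + t)) • x + (t / (1 + t)) • x = x := by
          rw [← add_smul]
          have : 1 / (1 + t) + t / (1 + t) = 1 := by field_simp
          rw [this, one_smul]
        calc (1 / (1 + t)) • x + ((t / (1 + t)) • x - (t / (1 + t)) • y) + (t / (1 + t)) • y
            = (1 / (1 + t)) • x + (t / (1 + t)) • x := by abel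
          _ = x := e2
    have h2 := hx.2 hmem hy.1 hseg
    have h3 : t • (x - y) = 0 := by
      have h4 : x + t • (x - y) = x := h2
      simpa using h4
    rcases smul_eq_zero.1 h3 with h4 | h4
    · exact ht.ne' h4
    · exact hne (sub_eq_zero.1 h4)
  exact Set.Finite.of_finite_image (Set.toFinite _) hinj

lemma hull_of_bounded [FiniteDimensional ℝ E] (a : ι → StrongDual ℝ E) (b : ι → ℝ)
    (hb : Bornology.IsBounded (Pol a b)) :
    Pol a b = convexHull ℝ ((Pol a b).extremePoints ℝ) := by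
  have _ : ProperSpace E := FiniteDimensional.proper ℝ E
  have hcomp : IsCompact (Pol a b) := Metric.isCompact_of_isClosed_isBounded (Pol_closed a b) hb
  have h := closure_convexHull_extremePoints hcomp (Pol_convex a b)
  have h2 : IsClosed (convexHull ℝ ((Pol a b).extremePoints ℝ)) :=
    (extreme_finite a b).isClosed_convexHull ℝ
  rw [h2.closure_eq] at h
  exact h.symm

end general

end H11Ins
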