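import Mathlib

/-!
The cosine series of the kernel used for inscribability of polytopes with few facets.
-/

open Finset Filter Topology

namespace H11Ins

/-- closed form inside the open disk -/
lemma disk_hasSum {w : ℂ} (hw : ‖w‖ < 1) :
    HasSum (fun k : ℕ => 2 * w ^ (k + 3) / (((k : ℂ) + 1) * ((k : ℂ) + 3)))
      ((w ^ 2 - 1) * (-Complex.log (1 - w)) + w + w ^ 2 / 2) := by
  have h := Complex.hasSum_taylorSeries_neg_log hw
  have h1 : HasSum (fun k : ℕ => w ^ (k + 1) / ((k + 1 : ℕ) : ℂ)) (-Complex.log (1 - w)) := by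
    have := (hasSum_nat_add_iff' 1).2 h
    simpa using this
  have h3 : HasSum (fun k : ℕ => w ^ (k + 3) / ((k + 3 : ℕ) : ℂ))
      (-Complex.log (1 - w) - (w + w ^ 2 / 2)) := by
    have := (hasSum_nat_add_iff' 3).2 h
    simpa [Finset.sum_range_succ] using this
  have h4 := (h1.mul_left (w ^ 2)).sub h3
  have hf : (fun k : ℕ => 2 * w ^ (k + 3) / (((k : ℂ) + 1) * ((k : ℂ) + 3))) =
      fun k : ℕ => w ^ 2 * (w ^ (k + 1) / ((k + 1 : ℕ) : ℂ)) - w ^ (k + 3) / ((k + 3 : ℕ) : ℂ) := by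
    funext k
    have e1 : ((k : ℂ) + 1) ≠ 0 := by exact_mod_cast Nat.succ_ne_zero k
    have e3 : ((k : ℂ) + 3) ≠ 0 := by exact_mod_cast Nat.succ_ne_zero (k + 2)
    push_cast
    field_simp
    ring
  have hv : ((w ^ 2 - 1) * (-Complex.log (1 - w)) + w + w ^ 2 / 2) =
      w ^ 2 * -Complex.log (1 - w) - (-Complex.log (1 - w) - (w + w ^ 2 / 2)) := by ring
  rw [hf, hv]
  exact h4

lemma norm_term_le {w : ℂ} (hw : ‖w‖ ≤ 1) (k : ℕ) :
    ‖2 * w ^ (k + 3) / (((k : ℂ) + 1) * ((k : ℂ) + 3))‖ ≤ 2 / ((k : ℝ) + 1) ^ 2 := by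
  have e1 : ‖((k : ℂ) + 1)‖ = (k : ℝ) + 1 := by
    have : ((k : ℂ) + 1) = (((k : ℝ) + 1 : ℝ) : ℂ) := by push_cast; ring
    rw [this, Complex.norm_real, Real.norm_of_nonneg (by positivity)]
  have e3 : ‖((k : ℂ) + 3)‖ = (k : ℝ) + 3 := by
    have : ((k : ℂ) + 3) = (((k : ℝ) + 3 : ℝ) : ℂ) := by push_cast; ring
    rw [this, Complex.norm_real, Real.norm_of_nonneg (by positivity)]
  rw [norm_div, norm_mul, norm_mul, norm_pow, e1, e3, Complex.norm_ofNat]
  have h1 : ‖w‖ ^ (k + 3) ≤ 1 := pow_le_one₀ (norm_nonneg _) hw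
  have h2 : ((k : ℝ) + 1) ^ 2 ≤ ((k : ℝ) + 1) * ((k : ℝ) + 3) := by
    rw [sq]
    gcongr
    norm_num
  have h3 : (0 : ℝ) < ((k : ℝ) + 1) ^ 2 := by positivity
  calc 2 * ‖w‖ ^ (k + 3) / (((k : ℝ) + 1) * ((k : ℝ) + 3))
      ≤ 2 * 1 / (((k : ℝ) + 1) * ((k : ℝ) + 3)) := by gcongr
    _ ≤ 2 / ((k : ℝ) + 1) ^ 2 := by
        rw [mul_one]
        gcongr

lemma summable_bound : Summable (fun k : ℕ => 2 / ((k : ℝ) + 1) ^ 2) := by
  have h := (Real.summable_one_div_nat_pow (p := 2)).2 (by norm_num)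
  have h2 := (summable_nat_add_iff 1).2 h
  have h3 := h2.mul_left 2
  have hf : (fun k : ℕ => 2 / ((k : ℝ) + 1) ^ 2) =
      fun k : ℕ => 2 * (1 / ((k + 1 : ℕ) : ℝ) ^ 2) := by
    funext k
    push_cast
    ring
  rw [hf]
  exact h3

/-- closed form on the unit circle away from `1` -/
lemma circle_hasSum {w : ℂ} (hw : ‖w‖ = 1) (hw1 : w ≠ 1) :
    HasSum (fun k : ℕ => 2 * w ^ (k + 3) / (((k : ℂ) + 1) * ((k : ℂ) + 3)))
      ((w ^ 2 - 1) * (-Complex.log (1 - w)) + w + w ^ 2 / 2) := by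
  have hsum : Summable (fun k : ℕ => 2 * w ^ (k + 3) / (((k : ℂ) + 1) * ((k : ℂ) + 3))) :=
    Summable.of_norm_bounded summable_bound (norm_term_le hw.le)
  have hslit : 1 - w ∈ Complex.slitPlane := by
    rw [Complex.mem_slitPlane_iff]
    left
    rw [Complex.sub_re, Complex.one_re]
    have h1 : w.re ^ 2 + w.im ^ 2 = 1 := by
      have := Complex.sq_norm w
      rw [hw, Complex.normSq_apply] at this
      nlinarith
    by_contra hneg
    push Not at hneg
    have h2 : 1 ≤ w.re := by linarith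
    have h3 : w.im = 0 := by nlinarith [sq_nonneg w.im]
    have h4 : w.re = 1 := by nlinarith
    exact hw1 (Complex.ext (by simpa using h4) (by simpa using h3))
  have hr : Tendsto (fun r : ℝ => (r : ℂ) * w) (𝓝[<] 1) (𝓝 w) := by
    have : Continuous (fun r : ℝ => (r : ℂ) * w) := by fun_prop
    have h := this.tendsto 1
    simp only [Complex.ofReal_one, one_mul] at h
    exact h.mono_left nhdsWithin_le_nhds
  have hev : ∀ᶠ r : ℝ in 𝓝[<] 1, 0 ≤ r ∧ r < 1 := by
    have h1 : ∀ᶠ r : ℝ in 𝓝[<] 1, r < 1 := eventually_mem_nhdsWithin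
    have h2 : ∀ᶠ r : ℝ in 𝓝[<] 1, 0 ≤ r :=
      (eventually_ge_nhds (by norm_num : (0 : ℝ) < 1)).filter_mono nhdsWithin_le_nhds
    exact h2.and h1
  have hlim1 : Tendsto (fun r : ℝ => ∑' k : ℕ,
      2 * ((r : ℂ) * w) ^ (k + 3) / (((k : ℂ) + 1) * ((k : ℂ) + 3))) (𝓝[<] 1)
      (𝓝 (∑' k : ℕ, 2 * w ^ (k + 3) / (((k : ℂ) + 1) * ((k : ℂ) + 3)))) := by
    apply tendsto_tsum_of_dominated_convergence summable_bound
    · intro k
      exact ((hr.pow (k + 3)).const_mul 2).div_const _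
    · filter_upwards [hev] with r hr1 k
      apply norm_term_le
      rw [norm_mul, hw, mul_one, Complex.norm_real, Real.norm_of_nonneg hr1.1]
      exact hr1.2.le
  have hlim2 : Tendsto (fun r : ℝ => ((((r : ℂ) * w) ^ 2 - 1) *
      (-Complex.log (1 - (r : ℂ) * w)) + (r : ℂ) * w + ((r : ℂ) * w) ^ 2 / 2)) (𝓝[<] 1)
      (𝓝 ((w ^ 2 - 1) * (-Complex.log (1 - w)) + w + w ^ 2 / 2)) := by
    have hlog : Tendsto (fun r : ℝ => Complex.log (1 - (r : ℂ) * w)) (𝓝[<] 1)
        (𝓝 (Complex.log (1 - w))) := by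
      have h1 : Tendsto (fun r : ℝ => 1 - (r : ℂ) * w) (𝓝[<] 1) (𝓝 (1 - w)) :=
        tendsto_const_nhds.sub hr
      exact (continuousAt_clog hslit).tendsto.comp h1
    exact (((((hr.pow 2).sub_const 1).mul hlog.neg).add hr).add ((hr.pow 2).div_const 2))
  have heq : ∀ᶠ r : ℝ in 𝓝[<] 1, ∑' k : ℕ,
      2 * ((r : ℂ) * w) ^ (k + 3) / (((k : ℂ) + 1) * ((k : ℂ) + 3)) =
      ((((r : ℂ) * w) ^ 2 - 1) *
      (-Complex.log (1 - (r : ℂ) * w)) + (r : ℂ) * w + ((r : ℂ) * w) ^ 2 / 2) := by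
    filter_upwards [hev] with r hr1
    apply (disk_hasSum _).tsum_eq
    rw [norm_mul, hw, mul_one, Complex.norm_real, Real.norm_of_nonneg hr1.1]
    exact hr1.2
  have := tendsto_nhds_unique (hlim1.congr' heq) hlim2
  rw [← this]
  exact hsum.hasSum

/-- the basic cosine series -/
lemma W_hasSum {θ : ℝ} (h0 : 0 ≤ θ) (h1 : θ ≤ 2 * Real.pi) :
    HasSum (fun k : ℕ => Real.cos (((k : ℝ) + 2) * θ) / (((k : ℝ) + 1) * ((k : ℝ) + 3)))
      (1 / 2 + Real.cos θ / 4 - (Real.pi - θ) * Real.sin θ / 2) := by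
  have hpi := Real.pi_pos
  by_cases hends : θ = 0 ∨ θ = 2 * Real.pi
  · have hcos : ∀ k : ℕ, Real.cos (((k : ℝ) + 2) * θ) = 1 := by
      intro k
      rcases hends with rfl | rfl
      · simp
      · have : ((k : ℝ) + 2) * (2 * Real.pi) = ((k + 2 : ℕ) : ℝ) * (2 * Real.pi) := by
          push_cast; ring
        rw [this, Real.cos_nat_mul_two_pi]
    have hval : 1 / 2 + Real.cos θ / 4 - (Real.pi - θ) * Real.sin θ / 2 = 3 / 4 := by
      rcases hends with rfl | rfl
      · norm_num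
      · rw [Real.cos_two_pi, Real.sin_two_pi]; norm_num
    rw [hval]
    simp_rw [hcos]
    rw [hasSum_iff_tendsto_nat_of_nonneg (fun k => by positivity)]
    have hpart : ∀ n : ℕ, ∑ k ∈ range n, 1 / (((k : ℝ) + 1) * ((k : ℝ) + 3)) =
        3 / 4 - 1 / 2 * (1 / ((n : ℝ) + 1)) - 1 / 2 * (1 / ((n : ℝ) + 1 + 1)) := by
      intro n
      induction n with
      | zero => norm_num
      | succ n ih =>
        rw [sum_range_succ, ih]
        push_cast
        field_simp
        ring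
    simp_rw [hpart]
    have ha := tendsto_one_div_add_atTop_nhds_zero_nat (𝕜 := ℝ)
    have hb : Tendsto (fun n : ℕ => 1 / ((n : ℝ) + 1 + 1)) atTop (𝓝 0) := by
      have := ha.comp (tendsto_add_atTop_nat 1)
      refine this.congr fun n => ?_
      simp
    have hc := ((tendsto_const_nhds (x := (3 / 4 : ℝ))).sub (ha.const_mul (1 / 2))).sub
      (hb.const_mul (1 / 2))
    simpa using hc
  · push Not at hends
    have hlt0 : 0 < θ := lt_of_le_of_ne h0 (Ne.symm hends.1)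
    have hlt1 : θ < 2 * Real.pi := lt_of_le_of_ne h1 hends.2
    set w : ℂ := Complex.exp (θ * Complex.I) with hw
    have hnorm : ‖w‖ = 1 := Complex.norm_exp_ofReal_mul_I θ
    have hsin : 0 < Real.sin (θ / 2) := Real.sin_pos_of_pos_of_lt_pi (by linarith) (by linarith)
    have hform : 1 - w = ((2 * Real.sin (θ / 2) : ℝ) : ℂ) *
        (Complex.cos (((θ - Real.pi) / 2 : ℝ) : ℂ) +
          Complex.sin (((θ - Real.pi) / 2 : ℝ) : ℂ) * Complex.I) := by
      have e1 : Real.cos ((θ - Real.pi) / 2) = Real.sin (θ / 2) := by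
        rw [show (θ - Real.pi) / 2 = θ / 2 - Real.pi / 2 by ring, Real.cos_sub_pi_div_two]
      have e2 : Real.sin ((θ - Real.pi) / 2) = -Real.cos (θ / 2) := by
        rw [show (θ - Real.pi) / 2 = θ / 2 - Real.pi / 2 by ring, Real.sin_sub_pi_div_two]
      rw [← Complex.ofReal_cos, ← Complex.ofReal_sin, e1, e2, hw, Complex.exp_mul_I,
        ← Complex.ofReal_cos, ← Complex.ofReal_sin]
      have e3 : Real.cos θ = 1 - 2 * Real.sin (θ / 2) ^ 2 := by
        have := Real.cos_two_mul (θ / 2)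
        rw [show 2 * (θ / 2) = θ by ring] at this
        have h5 := Real.sin_sq_add_cos_sq (θ / 2)
        linarith
      have e4 : Real.sin θ = 2 * Real.sin (θ / 2) * Real.cos (θ / 2) := by
        have := Real.sin_two_mul (θ / 2)
        rwa [show 2 * (θ / 2) = θ by ring] at this
      rw [e3, e4]
      push_cast
      ring
    have hw1 : w ≠ 1 := by
      intro h
      rw [h, sub_self] at hform
      have h2 := congrArg (fun z => ‖z‖) hform
      simp only [norm_zero, norm_mul] at h2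
      rw [Complex.norm_cos_add_sin_mul_I, Complex.norm_real,
        Real.norm_of_nonneg (by positivity)] at h2
      linarith
    have harg : (1 - w).arg = (θ - Real.pi) / 2 := by
      rw [hform]
      apply Complex.arg_mul_cos_add_sin_mul_I (by positivity)
      constructor <;> linarith
    have hmain := circle_hasSum hnorm hw1
    have hmul := Complex.hasSum_re (hmain.mul_left (w⁻¹ / 2))
    have hw0 : w ≠ 0 := Complex.exp_ne_zero _
    have hf : (fun k : ℕ => Real.cos (((k : ℝ) + 2) * θ) / (((k : ℝ) + 1) * ((k : ℝ) + 3))) =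
        fun k : ℕ => (w⁻¹ / 2 * (2 * w ^ (k + 3) / (((k : ℂ) + 1) * ((k : ℂ) + 3)))).re := by
      funext k
      have e1 : w⁻¹ / 2 * (2 * w ^ (k + 3) / (((k : ℂ) + 1) * ((k : ℂ) + 3))) =
          w ^ (k + 2) / ((((k : ℝ) + 1) * ((k : ℝ) + 3) : ℝ) : ℂ) := by
        have e2 : ((k : ℂ) + 1) ≠ 0 := by exact_mod_cast Nat.succ_ne_zero k
        have e3 : ((k : ℂ) + 3) ≠ 0 := by exact_mod_cast Nat.succ_ne_zero (k + 2)
        push_cast
        field_simp
        ring
      rw [e1, Complex.div_ofReal_re]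
      congr 1
      rw [hw, ← Complex.exp_nat_mul]
      have e4 : ((k + 2 : ℕ) : ℂ) * ((θ : ℂ) * Complex.I) =
          (((((k : ℝ) + 2) * θ : ℝ)) : ℂ) * Complex.I := by push_cast; ring
      rw [e4, Complex.exp_ofReal_mul_I_re]
    have hv : (1 / 2 + Real.cos θ / 4 - (Real.pi - θ) * Real.sin θ / 2) =
        (w⁻¹ / 2 * ((w ^ 2 - 1) * (-Complex.log (1 - w)) + w + w ^ 2 / 2)).re := by
      have e1 : w⁻¹ / 2 * ((w ^ 2 - 1) * (-Complex.log (1 - w)) + w + w ^ 2 / 2) =
          (w - w⁻¹) * (-Complex.log (1 - w)) / 2 + 1 / 2 + w / 4 := by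
        field_simp
        ring
      have e2 : w - w⁻¹ = ((2 * Real.sin θ : ℝ) : ℂ) * Complex.I := by
        rw [hw, ← Complex.exp_neg, ← neg_mul, Complex.exp_mul_I, Complex.exp_mul_I,
          Complex.cos_neg, Complex.sin_neg]
        push_cast
        ring
      have e3 : ((((2 * Real.sin θ : ℝ) : ℂ) * Complex.I) * (-Complex.log (1 - w))).re =
          2 * Real.sin θ * (1 - w).arg := by
        rw [mul_assoc, Complex.re_ofReal_mul, Complex.I_mul_re, Complex.neg_im, Complex.log_im]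
        ring
      rw [e1, e2, Complex.add_re, Complex.add_re]
      have e4 : ((((2 * Real.sin θ : ℝ) : ℂ) * Complex.I) * (-Complex.log (1 - w)) / 2).re =
          Real.sin θ * (1 - w).arg := by
        rw [show (2 : ℂ) = ((2 : ℝ) : ℂ) by norm_num, Complex.div_ofReal_re]
        have : (((((2 * Real.sin θ : ℝ) : ℂ) * Complex.I) * (-Complex.log (1 - w))).re) / 2 =
          Real.sin θ * (1 - w).arg := by rw [e3]; ring
        simpa using this
      have e5 : (w / 4).re = Real.cos θ / 4 := by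
        rw [show (4 : ℂ) = ((4 : ℝ) : ℂ) by norm_num, Complex.div_ofReal_re, hw,
          Complex.exp_ofReal_mul_I_re]
      have e6 : ((1 : ℂ) / 2).re = 1 / 2 := by norm_num
      rw [e4, e5, e6, harg]
      ring
    rw [hf, hv]
    exact hmul

/-- the kernel -/
noncomputable def kap (θ : ℝ) : ℝ :=
  1 / 2 + 3 / 4 * Real.cos θ + Real.sin θ * (3 / 2 * θ - Real.pi)

/-- Fourier coefficients of the kernel -/
noncomputable def cf (k : ℕ) : ℝ := (2 - (-1) ^ k) / (((k : ℝ) + 1) * ((k : ℝ) + 3))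

lemma cf_pos (k : ℕ) : 0 < cf k := by
  unfold cf
  apply div_pos _ (by positivity)
  rcases neg_one_pow_eq_or ℝ k with h | h <;> rw [h] <;> norm_num

lemma kap_hasSum {θ : ℝ} (h0 : 0 ≤ θ) (h1 : θ ≤ Real.pi) :
    HasSum (fun k : ℕ => cf k * Real.cos (((k : ℝ) + 2) * θ)) (kap θ) := by
  have ha := W_hasSum h0 (by linarith [Real.pi_pos])
  have hb := W_hasSum (θ := θ + Real.pi) (by linarith [Real.pi_pos]) (by linarith)
  have hc := (ha.mul_left 2).sub hb
  have hf : (fun k : ℕ => cf k * Real.cos (((k : ℝ) + 2) * θ)) = fun k : ℕ =>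
      2 * (Real.cos (((k : ℝ) + 2) * θ) / (((k : ℝ) + 1) * ((k : ℝ) + 3))) -
      Real.cos (((k : ℝ) + 2) * (θ + Real.pi)) / (((k : ℝ) + 1) * ((k : ℝ) + 3)) := by
    funext k
    have e1 : Real.cos (((k : ℝ) + 2) * (θ + Real.pi)) =
        (-1) ^ k * Real.cos (((k : ℝ) + 2) * θ) := by
      have e2 : ((k : ℝ) + 2) * (θ + Real.pi) =
          ((k : ℝ) + 2) * θ + ((k + 2 : ℕ) : ℝ) * Real.pi := by push_cast; ring
      rw [e2, Real.cos_add_nat_mul_pi, pow_add]
      norm_num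
    rw [e1]
    unfold cf
    ring
  have hv : kap θ = 2 * (1 / 2 + Real.cos θ / 4 - (Real.pi - θ) * Real.sin θ / 2) -
      (1 / 2 + Real.cos (θ + Real.pi) / 4 -
        (Real.pi - (θ + Real.pi)) * Real.sin (θ + Real.pi) / 2) := by
    rw [Real.cos_add_pi, Real.sin_add_pi]
    unfold kap
    ring
  rw [hf, hv]
  exact hc

end H11Ins
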