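import Pool.Agent.H11Ins.Poly
import Mathlib

/-!
Convex hulls of finite sets with nonempty interior are irredundant intersections of half spaces,
each of which defines a facet.
-/

open Finset Filter Topology
open scoped RealInnerProductSpace

namespace H11Ins

variable {E : Type*} [NormedAddCommGroup E] [InnerProductSpace ℝ E] [FiniteDimensional ℝ E]

/-- polyhedron centered at `x0` -/
def cPol (x0 : E) (T : Set E) : Set E := {x | ∀ t ∈ T, ⟪t, x - x0⟫ ≤ 1}

lemma exists_cPol {S : Set E} (hS : S.Finite) {x0 : E} (hx0 : x0 ∈ interior (convexHull ℝ S)) :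
    ∃ T : Set E, T.Finite ∧ convexHull ℝ S = cPol x0 T := by
  set P := convexHull ℝ S with hP
  obtain ⟨δ, hδ, hball⟩ := Metric.isOpen_iff.1 isOpen_interior x0 hx0
  have hballP : Metric.ball x0 δ ⊆ P := hball.trans interior_subset
  -- the polar
  have hfin : Finite S := hS
  set a : S → StrongDual ℝ E := fun s => innerSL ℝ ((s : E) - x0) with ha
  set b : S → ℝ := fun _ => 1 with hb
  have hpolar : ∀ y ∈ Pol a b, ∀ x ∈ P, ⟪y, x - x0⟫ ≤ 1 := by
    intro y hy x hx
    have hsub : P ⊆ {x | ⟪y, x⟫ ≤ 1 + ⟪y, x0⟫} := by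
      apply convexHull_min
      · intro s hs
        have h1 := hy ⟨s, hs⟩
        simp only [ha, hb, innerSL_apply_apply] at h1
        rw [real_inner_comm, inner_sub_right] at h1
        show ⟪y, s⟫ ≤ 1 + ⟪y, x0⟫
        linarith
      · exact convex_halfSpace_le (innerSL ℝ y).toLinearMap.isLinear _
    have h2 : ⟪y, x⟫ ≤ 1 + ⟪y, x0⟫ := hsub hx
    rw [inner_sub_right]
    linarith
  have hbdd : Bornology.IsBounded (Pol a b) := by
    rw [Metric.isBounded_iff_subset_closedBall 0]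
    refine ⟨2 / δ, fun y hy => ?_⟩
    rw [mem_closedBall_zero_iff]
    by_cases hy0 : y = 0
    · rw [hy0, norm_zero]; positivity
    have hn : 0 < ‖y‖ := norm_pos_iff.2 hy0
    have h1 : x0 + (δ / 2 * ‖y‖⁻¹) • y ∈ P := by
      apply hballP
      rw [mem_ball_iff_norm, add_sub_cancel_left, norm_smul, Real.norm_of_nonneg (by positivity)]
      have : δ / 2 * ‖y‖⁻¹ * ‖y‖ = δ / 2 := by field_simp
      rw [this]; linarith
    have h2 := hpolar y hy _ h1
    rw [add_sub_cancel_left, inner_smul_right, real_inner_self_eq_norm_sq] at h2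
    have h3 : δ / 2 * ‖y‖⁻¹ * ‖y‖ ^ 2 = δ / 2 * ‖y‖ := by field_simp
    rw [h3] at h2
    rw [le_div_iff₀ hδ]
    linarith
  have hhull := hull_of_bounded a b hbdd
  set T := (Pol a b).extremePoints ℝ with hT
  refine ⟨T, extreme_finite a b, ?_⟩
  apply Set.Subset.antisymm
  · intro x hx t ht
    exact hpolar t ht.1 x hx
  · intro x hx
    by_contra hxP
    have hclosed : IsClosed P := hS.isClosed_convexHull ℝ
    obtain ⟨f, c, hf1, hf2⟩ := geometric_hahn_banach_closed_point (convex_convexHull ℝ S)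
      hclosed hxP
    set y := (InnerProductSpace.toDual ℝ E).symm f with hy
    have hfy : ∀ z, f z = ⟪y, z⟫ := fun z => (InnerProductSpace.toDual_symm_apply).symm
    have hx0P : x0 ∈ P := interior_subset hx0
    have hcpos : 0 < c - f x0 := by linarith [hf1 x0 hx0P]
    set y' : E := (c - f x0)⁻¹ • y with hy'
    have hy'P : y' ∈ Pol a b := by
      intro s
      simp only [ha, hb, innerSL_apply_apply]
      rw [real_inner_comm, hy', real_inner_smul_left, inner_sub_right, ← hfy, ← hfy]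
      have h1 := hf1 s (subset_convexHull ℝ S s.2)
      rw [inv_mul_le_iff₀ hcpos, mul_one]
      linarith
    have h2 : y' ∈ convexHull ℝ T := by rw [← hhull]; exact hy'P
    have h3 : convexHull ℝ T ⊆ {z | ⟪z, x - x0⟫ ≤ 1} := by
      apply convexHull_min
      · intro t ht
        exact hx t ht
      · have h4 := convex_halfSpace_le (𝕜 := ℝ) (innerSL ℝ (x - x0)).toLinearMap.isLinear 1
        have h5 : {z : E | ⟪z, x - x0⟫ ≤ 1} =
            {w | (innerSL ℝ (x - x0)).toLinearMap w ≤ 1} := by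
          ext z
          simp only [Set.mem_ofPred_eq]
          rw [real_inner_comm]
          rfl
        rw [h5]
        exact h4
    have h4 : ⟪y', x - x0⟫ ≤ 1 := h3 h2
    rw [hy', real_inner_smul_left, inner_sub_right, ← hfy, ← hfy, inv_mul_le_iff₀ hcpos,
      mul_one] at h4
    linarith

/-- a minimal representation -/
lemma exists_min_cPol {S : Set E} (hS : S.Finite) {x0 : E}
    (hx0 : x0 ∈ interior (convexHull ℝ S)) :
    ∃ T : Set E, T.Finite ∧ convexHull ℝ S = cPol x0 T ∧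
      ∀ t ∈ T, ∃ z, (∀ t' ∈ T, t' ≠ t → ⟪t', z - x0⟫ ≤ 1) ∧ 1 < ⟪t, z - x0⟫ := by
  obtain ⟨T0, hT0, hPT0⟩ := exists_cPol hS hx0
  obtain ⟨T, ⟨hTfin, hTP⟩, hmin⟩ : ∃ T : Set E, (T.Finite ∧ convexHull ℝ S = cPol x0 T) ∧
      ∀ T' : Set E, (T'.Finite ∧ convexHull ℝ S = cPol x0 T') → T.ncard ≤ T'.ncard := by
    set N : Set ℕ := {n | ∃ T : Set E, (T.Finite ∧ convexHull ℝ S = cPol x0 T) ∧ T.ncard = n}
      with hN
    have hne : N.Nonempty := ⟨_, T0, ⟨hT0, hPT0⟩, rfl⟩
    obtain ⟨T, hT, hTn⟩ := WellFounded.min_mem wellFounded_lt N hne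
    refine ⟨T, hT, fun T' hT' => ?_⟩
    have h1 := WellFounded.not_lt_min wellFounded_lt N (x := T'.ncard) ⟨T', hT', rfl⟩
    rw [hTn]
    exact not_lt.1 h1
  refine ⟨T, hTfin, hTP, fun t ht => ?_⟩
  by_contra hcon
  push Not at hcon
  have h1 : convexHull ℝ S = cPol x0 (T \ {t}) := by
    rw [hTP]
    apply Set.Subset.antisymm
    · intro x hx t' ht'
      exact hx t' ht'.1
    · intro x hx t' ht'
      by_cases h : t' = t
      · rw [h]
        exact hcon x (fun t'' h1 h2 => hx t'' ⟨h1, h2⟩)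
      · exact hx t' ⟨ht', h⟩
  have h2 := hmin _ ⟨hTfin.subset Set.sdiff_subset, h1⟩
  have h3 := Set.ncard_sdiff_singleton_lt_of_mem ht hTfin
  omega

/-- each member of a minimal representation defines a facet -/
lemma facet_of_min {T : Set E} (hT : T.Finite) {x0 : E} {t : E} (ht : t ∈ T) {z : E}
    (hz : ∀ t' ∈ T, t' ≠ t → ⟪t', z - x0⟫ ≤ 1) (hzt : 1 < ⟪t, z - x0⟫) :
    IsExposed ℝ (cPol x0 T) {x ∈ cPol x0 T | ⟪t, x - x0⟫ = 1} ∧
    (∃ w ∈ cPol x0 T, ⟪t, w - x0⟫ = 1 ∧ ∀ t' ∈ T, t' ≠ t → ⟪t', w - x0⟫ < 1) ∧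
    vectorSpan ℝ {x ∈ cPol x0 T | ⟪t, x - x0⟫ = 1} = (ℝ ∙ t)ᗮ ∧ t ≠ 0 := by
  set c := ⟪t, z - x0⟫ with hc
  have hc0 : 0 < c := by linarith
  set w : E := x0 + c⁻¹ • (z - x0) with hw
  have hwt : ⟪t, w - x0⟫ = 1 := by
    rw [hw, add_sub_cancel_left, inner_smul_right, ← hc, inv_mul_cancel₀ hc0.ne']
  have hwt' : ∀ t' ∈ T, t' ≠ t → ⟪t', w - x0⟫ < 1 := by
    intro t' ht' hne
    rw [hw, add_sub_cancel_left, inner_smul_right, inv_mul_lt_iff₀ hc0, mul_one]
    exact (hz t' ht' hne).trans_lt hzt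
  have hwP : w ∈ cPol x0 T := by
    intro t' ht'
    by_cases h : t' = t
    · rw [h, hwt]
    · exact (hwt' t' ht' h).le
  have ht0 : t ≠ 0 := by
    rintro rfl
    rw [inner_zero_left] at hwt
    norm_num at hwt
  refine ⟨?_, ⟨w, hwP, hwt, hwt'⟩, ?_, ht0⟩
  · intro _
    refine ⟨innerSL ℝ t, ?_⟩
    ext x
    constructor
    · rintro ⟨hx, hxt⟩
      refine ⟨hx, fun y hy => ?_⟩
      have h1 := hy t ht
      rw [inner_sub_right] at h1 hxt
      simp only [innerSL_apply_apply]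
      linarith
    · rintro ⟨hx, hxm⟩
      refine ⟨hx, ?_⟩
      have h1 := hxm w hwP
      simp only [innerSL_apply_apply] at h1
      have h2 := hx t ht
      rw [inner_sub_right] at h2 hwt ⊢
      linarith
  · apply le_antisymm
    · rw [vectorSpan_def, Submodule.span_le]
      rintro v ⟨x, hx, y, hy, rfl⟩
      rw [SetLike.mem_coe, Submodule.mem_orthogonal_singleton_iff_inner_right]
      have h1 := hx.2
      have h2 := hy.2
      have h3 : x -ᵥ y = (x - x0) - (y - x0) := by rw [vsub_eq_sub]; abel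
      show ⟪t, x -ᵥ y⟫ = 0
      rw [h3, inner_sub_right, h1, h2, sub_self]
    · intro v hv
      rw [Submodule.mem_orthogonal_singleton_iff_inner_right] at hv
      have hev : ∀ᶠ s : ℝ in 𝓝[>] 0, ∀ t' ∈ T, ⟪t', w + s • v - x0⟫ ≤ 1 := by
        have h1 : ∀ t' ∈ T, ∀ᶠ s : ℝ in 𝓝[>] 0, ⟪t', w + s • v - x0⟫ ≤ 1 := by
          intro t' ht'
          by_cases h : t' = t
          · refine Eventually.of_forall fun s => ?_
            rw [h]
            have : w + s • v - x0 = (w - x0) + s • v := by abel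
            rw [this, inner_add_right, inner_smul_right, hv, hwt, mul_zero, add_zero]
          · have hcont : Continuous (fun s : ℝ => ⟪t', w + s • v - x0⟫) := by fun_prop
            have h4 := hcont.tendsto 0
            simp only [zero_smul, add_zero] at h4
            exact ((h4.mono_left nhdsWithin_le_nhds).eventually
              (gt_mem_nhds (hwt' t' ht' h))).mono fun s hs => le_of_lt hs
        exact (eventually_all_finite hT).2 h1
      have hpos : ∀ᶠ s : ℝ in 𝓝[>] 0, 0 < s := eventually_mem_nhdsWithin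
      obtain ⟨s, hs0, hs⟩ := (hpos.and hev).exists
      have hmem : w + s • v ∈ {x ∈ cPol x0 T | ⟪t, x - x0⟫ = 1} := by
        refine ⟨hs, ?_⟩
        have : w + s • v - x0 = (w - x0) + s • v := by abel
        rw [this, inner_add_right, inner_smul_right, hv, hwt, mul_zero, add_zero]
      have h5 := vsub_mem_vectorSpan ℝ hmem (show w ∈ {x ∈ cPol x0 T | ⟪t, x - x0⟫ = 1} from
        ⟨hwP, hwt⟩)
      have h6 : (w + s • v) -ᵥ w = s • v := by rw [vsub_eq_sub, add_sub_cancel_left]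
      rw [h6] at h5
      exact (Submodule.smul_mem_iff _ hs0.ne').1 h5

/-- the number of constraints of a minimal representation is at most the number of facets -/
lemma card_le_facets {T : Set E} (hT : T.Finite) {x0 : E}
    (hmin : ∀ t ∈ T, ∃ z, (∀ t' ∈ T, t' ≠ t → ⟪t', z - x0⟫ ≤ 1) ∧ 1 < ⟪t, z - x0⟫) :
    T.encard ≤ {F : Set E | IsExposed ℝ (cPol x0 T) F ∧ F.Nonempty ∧
      Module.finrank ℝ (vectorSpan ℝ F) + 1 = Module.finrank ℝ E}.encard := by
  set f : E → Set E := fun t => {x ∈ cPol x0 T | ⟪t, x - x0⟫ = 1} with hf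
  have hinj : Set.InjOn f T := by
    intro t ht t' ht' h
    by_contra hne
    obtain ⟨z, hz, hzt⟩ := hmin t ht
    obtain ⟨_, ⟨w, hwP, hwt, hwt'⟩, _, _⟩ := facet_of_min hT ht hz hzt
    have h1 : w ∈ f t := ⟨hwP, hwt⟩
    rw [h] at h1
    have h2 := hwt' t' ht' (Ne.symm hne)
    have h3 : ⟪t', w - x0⟫ = 1 := h1.2
    linarith
  rw [← hinj.encard_image]
  apply Set.encard_le_encard
  rintro F ⟨t, ht, rfl⟩
  obtain ⟨z, hz, hzt⟩ := hmin t ht
  obtain ⟨hexp, ⟨w, hwP, hwt, hwt'⟩, hspan, ht0⟩ := facet_of_min hT ht hz hzt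
  refine ⟨hexp, ⟨w, hwP, hwt⟩, ?_⟩
  have h1 : vectorSpan ℝ (f t) = (ℝ ∙ t)ᗮ := hspan
  rw [h1]
  have h2 := Submodule.finrank_add_finrank_orthogonal (ℝ ∙ t)
  rw [finrank_span_singleton ht0] at h2
  omega

end H11Ins
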